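import Pool.Agent.N483.KM.Gbs

/-!
# Equivalence of ensembles for the KLS inequality: multiples, translations, level sets
-/

set_option autoImplicit false

namespace Pool.Agent.U405.KE

open MeasureTheory Set Filter Topology
open scoped ENNReal InnerProductSpace
open Pool.Agent.R754.KG (E un)
open Pool.Agent.Y506.PV (CcW ind LCn)
open Pool.Agent.Y506.RG (EW VW Adm Star pm)
open Pool.Agent.N483.KM

/-! ### multiples -/

theorem ew_smul {n : ℕ} {c : ℝ} (hc : c ≠ 0) (w v : E n → ℝ) :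
    EW (fun x => c * w x) v = EW w v := by
  unfold EW
  have h1 : ∀ x, v x * (c * w x) = c * (v x * w x) := fun x => by ring
  simp only [h1, integral_const_mul]
  rw [mul_div_mul_left _ _ hc]

theorem vw_smul {n : ℕ} {c : ℝ} (hc : c ≠ 0) (w v : E n → ℝ) :
    VW (fun x => c * w x) v = VW w v := by
  unfold VW
  rw [ew_smul hc, ew_smul hc]

theorem kmw_smul {n : ℕ} {A δ c : ℝ} (hc : c ≠ 0) {w : E n → ℝ} (h : KMW A δ w) :
    KMW A δ (fun x => c * w x) := by
  intro k P s hs hvar v C hv hv1 hvl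
  rw [vw_smul hc, ew_smul hc]
  exact h k P s hs (fun θ hθ => by rw [← vw_smul hc]; exact hvar θ hθ) v C hv hv1 hvl

theorem adm_smul {n : ℕ} {c : ℝ} (hc : 0 < c) {w : E n → ℝ} (h : Adm w) :
    Adm (fun x => c * w x) := by
  refine ⟨fun x => mul_nonneg hc.le (h.nonneg x), ?_, ?_, h.meas.const_mul c⟩
  · refine (h.int.const_mul c).congr (Eventually.of_forall fun x => ?_)
    change c * ((1 + ‖x‖ ^ 2) * w x) = (1 + ‖x‖ ^ 2) * (c * w x)
    ring
  · rw [integral_const_mul]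
    exact mul_pos hc h.pos

/-! ### translations -/

theorem kmw_shift {n : ℕ} {A δ : ℝ} {w : E n → ℝ} (a : E n) (hA : Adm w) (h : KMW A δ w) :
    KMW A δ fun x => w (a + x) := by
  intro k T s hs hvar v C hv hv1 hvl
  have hT : Continuous T := T.continuous_of_finiteDimensional
  have e1 : VW (fun x => w (a + x)) (fun x => v (T x)) = VW w fun x => v (-T a + T x) := by
    rw [← vw_shift w (fun x => v (-T a + T x)) a]
    congr 1
    funext x
    rw [map_add, neg_add_cancel_left]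
  have e2 : EW (fun x => w (a + x)) (fun x => ‖fderiv ℝ v (T x)‖ ^ 2) =
      EW w fun x => ‖fderiv ℝ (fun y => v (-T a + y)) (T x)‖ ^ 2 := by
    rw [← ew_shift w (fun x => ‖fderiv ℝ (fun y => v (-T a + y)) (T x)‖ ^ 2) a]
    congr 1
    funext x
    rw [fderiv_comp_add_left, map_add, neg_add_cancel_left]
  rw [e1, e2]
  refine h k T s hs (fun θ hθ => ?_) (fun y => v (-T a + y)) C (by fun_prop) (fun y => hv1 _)
    fun y => ?_
  · refine le_trans (le_of_eq ?_) (hvar θ hθ)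
    have h0 : VW (fun x => w (a + x)) (fun x => ⟪T x, θ⟫_ℝ) =
        VW w fun x => ⟪T x, θ⟫_ℝ + -⟪T a, θ⟫_ℝ := by
      rw [← vw_shift w (fun x => ⟪T x, θ⟫_ℝ + -⟪T a, θ⟫_ℝ) a]
      congr 1
      funext x
      rw [map_add, inner_add_left]
      ring
    obtain ⟨i1, i2⟩ := Pool.Agent.Y506.RG.lin_int hA (fun x => ⟪T x, θ⟫_ℝ) (by fun_prop)
      ‖LinearMap.toContinuousLinearMap T‖ (fun x => by
        refine (abs_real_inner_le_norm _ _).trans ?_
        rw [hθ, mul_one]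
        refine ((LinearMap.toContinuousLinearMap T).le_opNorm x).trans ?_
        exact mul_le_mul_of_nonneg_left (by linarith) (norm_nonneg _))
    rw [h0, Pool.Agent.Y506.RG.VW_add_const hA _ i1 i2]
  · rw [fderiv_comp_add_left]
    exact hvl _

/-! ### systems -/

/-- convex functions `S_1, …, S_r ≥ 0` with bounded joint sublevel sets -/
structure En {r N : ℕ} (S : Fin r → E N → ℝ) : Prop where
  convex : ∀ j, ConvexOn ℝ univ (S j)
  nonneg : ∀ j z, 0 ≤ S j z
  bdd : ∀ s : Fin r → ℝ, Bornology.IsBounded {z | ∀ j, S j z ≤ s j}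

theorem En.cont {r N : ℕ} {S : Fin r → E N → ℝ} (h : En S) (j : Fin r) : Continuous (S j) :=
  (h.convex j).locallyLipschitz.continuous

/-- the level sets -/
def lv {r m q N : ℕ} (ψ : (E m × E q) ≃ₗ[ℝ] E N) (S : Fin r → E N → ℝ) (e : Fin r → ℝ)
    (u : E q) : Set (E m) := {x | ∀ j, S j (ψ (x, u)) ≤ e j}

theorem lv_bdd {r m q N : ℕ} {ψ : (E m × E q) ≃ₗ[ℝ] E N} {S : Fin r → E N → ℝ} (hS : En S)
    (e : Fin r → ℝ) (u : E q) : Bornology.IsBounded (lv ψ S e u) := by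
  have hb1 := hS.bdd e
  have hψs := ψ.symm.toContinuousLinearEquiv.toContinuousLinearMap.lipschitz.isBounded_image hb1
  have hb2 := (ContinuousLinearMap.fst ℝ (E m) (E q)).lipschitz.isBounded_image hψs
  refine hb2.subset fun x hx => ?_
  exact ⟨(x, u), ⟨ψ (x, u), hx, ψ.symm_apply_apply _⟩, rfl⟩

theorem lv_cont {r m q N : ℕ} (ψ : (E m × E q) ≃ₗ[ℝ] E N) {S : Fin r → E N → ℝ} (hS : En S)
    (u : E q) (j : Fin r) : Continuous fun x : E m => S j (ψ (x, u)) := by
  have hψ : Continuous ψ := ψ.toLinearMap.continuous_of_finiteDimensional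
  exact (hS.cont j).comp (hψ.comp (by fun_prop))

theorem lv_closed {r m q N : ℕ} {ψ : (E m × E q) ≃ₗ[ℝ] E N} {S : Fin r → E N → ℝ} (hS : En S)
    (e : Fin r → ℝ) (u : E q) : IsClosed (lv ψ S e u) := by
  have e1 : lv ψ S e u = ⋂ j, {x : E m | S j (ψ (x, u)) ≤ e j} := by
    ext x
    simp [lv]
  rw [e1]
  exact isClosed_iInter fun j => isClosed_le (lv_cont ψ hS u j) continuous_const

theorem lv_compact {r m q N : ℕ} {ψ : (E m × E q) ≃ₗ[ℝ] E N} {S : Fin r → E N → ℝ} (hS : En S)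
    (e : Fin r → ℝ) (u : E q) : IsCompact (lv ψ S e u) :=
  Metric.isCompact_of_isClosed_isBounded (lv_closed hS e u) (lv_bdd hS e u)

theorem lv_int {r m q N : ℕ} {ψ : (E m × E q) ≃ₗ[ℝ] E N} {S : Fin r → E N → ℝ} (hS : En S)
    {e : Fin r → ℝ} {u : E q} (h : ∃ x : E m, ∀ j, S j (ψ (x, u)) < e j) :
    (interior (lv ψ S e u)).Nonempty := by
  obtain ⟨x, hx⟩ := h
  refine ⟨x, ?_⟩
  have ho : IsOpen {x : E m | ∀ j, S j (ψ (x, u)) < e j} := by
    have e1 : {x : E m | ∀ j, S j (ψ (x, u)) < e j} = ⋂ j, {x : E m | S j (ψ (x, u)) < e j} := by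
      ext x
      simp
    rw [e1]
    exact isOpen_iInter_of_finite fun j => isOpen_lt (lv_cont ψ hS u j) continuous_const
  exact interior_maximal (fun y hy j => (hy j).le) ho hx

/-- the canonical ensembles are integrable and satisfy weak Poincaré inequalities -/
def Can (A : ℝ → ℝ) {r m q N : ℕ} (ψ : (E m × E q) ≃ₗ[ℝ] E N) (S : Fin r → E N → ℝ) : Prop :=
  ∀ (l : Fin r → ℝ) (a : E q), (∀ j, 0 < l j) → Adm (gw ψ S l a) ∧
    ∀ δ : ℝ, 0 < δ → KMW (A δ) δ (gw ψ S l a)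

/-- the microcanonical ensembles satisfy weak Poincaré inequalities -/
def Mic (A : ℝ → ℝ) {r m q N : ℕ} (ψ : (E m × E q) ≃ₗ[ℝ] E N) (S : Fin r → E N → ℝ) : Prop :=
  ∀ (e : Fin r → ℝ) (u : E q), (∃ x : E m, ∀ j, S j (ψ (x, u)) < e j) →
    ∀ δ : ℝ, 0 < δ → KMW (A δ) δ (ind (lv ψ S e u))

theorem micro_lv {A : ℝ → ℝ} {r m q N : ℕ} (hm : 1 ≤ m) {ψ : (E m × E q) ≃ₗ[ℝ] E N}
    {S : Fin r → E N → ℝ} (hS : En S) (hC : Can A ψ S) (e : Fin r → ℝ) (u : E q)
    (h : ∃ x : E m, ∀ j, S j (ψ (x, u)) < e j) : Micro A r q m (lv ψ S e u) := by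
  have e0 : ∀ x : E m, ψ (0, u) + ψ (x, 0) = ψ (x, u) := by
    intro x
    rw [← map_add]
    congr 1
    simp
  have hlin : ∀ j, ConvexOn ℝ univ fun z => S j (ψ (0, u) + z) := by
    intro j
    refine ⟨convex_univ, fun x _ y _ a b ha hb hab => ?_⟩
    have h1 := (hS.convex j).2 (mem_univ (ψ (0, u) + x)) (mem_univ (ψ (0, u) + y)) ha hb hab
    have h2 : a • (ψ (0, u) + x) + b • (ψ (0, u) + y) = ψ (0, u) + (a • x + b • y) := by
      calc a • (ψ (0, u) + x) + b • (ψ (0, u) + y) = (a + b) • ψ (0, u) + (a • x + b • y) := by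
            module
        _ = _ := by rw [hab, one_smul]
    rwa [h2] at h1
  refine ⟨hm, N, ψ, fun j z => S j (ψ (0, u) + z), e, hlin, fun j z => hS.nonneg j _,
    fun s => ?_, ?_, fun l a hl => ?_, ?_⟩
  · have h1 : {z | ∀ j, S j (ψ (0, u) + z) ≤ s j} =
        (fun z => -ψ (0, u) + z) '' {z | ∀ j, S j z ≤ s j} := by
      ext z
      constructor
      · intro hz
        exact ⟨ψ (0, u) + z, hz, by simp⟩
      · rintro ⟨y, hy, rfl⟩ j
        change S j (ψ (0, u) + (-ψ (0, u) + y)) ≤ s j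
        rw [add_neg_cancel_left]
        exact hy j
    rw [h1]
    exact (LipschitzWith.of_dist_le_mul (K := 1) fun x y => by
      simp [dist_eq_norm]).isBounded_image (hS.bdd s)
  · obtain ⟨x, hx⟩ := h
    refine ⟨x, fun j => ?_⟩
    change S j (ψ (0, u) + ψ (x, 0)) < e j
    rw [e0]
    exact hx j
  · have h1 : gw ψ (fun j z => S j (ψ (0, u) + z)) l a =
        fun z => Real.exp ⟪a, u⟫_ℝ * gw ψ S l a (ψ (0, u) + z) := by
      funext z
      unfold gw
      rw [← Real.exp_add]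
      congr 1
      rw [map_add, ψ.symm_apply_apply, Prod.snd_add, inner_add_right]
      ring
    obtain ⟨k1, k2⟩ := hC l a hl
    rw [h1]
    refine ⟨adm_smul (Real.exp_pos _) (adm_shift' k1 _), fun δ hδ => ?_⟩
    exact kmw_smul (Real.exp_pos _).ne' (kmw_shift _ k1 (k2 δ hδ))
  · ext x
    simp only [lv, Set.mem_ofPred_eq, e0]

/-- from the canonical to the microcanonical ensembles -/
theorem mic_of_can (A : ℝ → ℝ) (r q : ℕ) : ∃ A' : ℝ → ℝ, ∀ (m N : ℕ)
    (ψ : (E m × E q) ≃ₗ[ℝ] E N) (S : Fin r → E N → ℝ), 1 ≤ m → En S → Can A ψ S → Mic A' ψ S := by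
  have h1 := micro_cc A r q
  choose! κ hκ H using h1
  obtain ⟨A', HA⟩ := wkmR κ hκ
  refine ⟨A', fun m N ψ S hm hS hC e u h δ hδ => ?_⟩
  have hM := micro_lv hm hS hC e u h
  obtain ⟨k1, k2, k3, -⟩ := H 1 one_pos m _ hM
  intro k P s hs hvar v C hv hv1 hvl
  exact HA m _ (lboR m _ k1 k2 k3) (fun δ hδ => (H δ hδ m _ hM).2.2.2) δ hδ k P s hs hvar v C hv
    hv1 hvl

end Pool.Agent.U405.KE
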