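import Pool.Agent.U405.KE.A

/-!
# Equivalence of ensembles for the KLS inequality: from the level sets to functions of the energies
-/

set_option autoImplicit false

namespace Pool.Agent.U405.KE

open MeasureTheory Set Filter Topology
open scoped ENNReal InnerProductSpace
open Pool.Agent.R754.KG (E un)
open Pool.Agent.Y506.PV (CcW ind LCn)
open Pool.Agent.Y506.RG (EW VW Adm Star pm)
open Pool.Agent.N483.KM

/-! ### weights on bounded sets -/

theorem usc_ind {α : Type} [TopologicalSpace α] {D : Set α} (hD : IsClosed D) {g : α → ℝ}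
    (hg : UpperSemicontinuous g) (h0 : ∀ x, 0 ≤ g x) : UpperSemicontinuous (D.indicator g) := by
  rw [upperSemicontinuous_iff_isClosed_preimage]
  intro y
  rcases le_or_gt y 0 with hy | hy
  · have h1 : D.indicator g ⁻¹' Ici y = univ := by
      refine eq_univ_of_forall fun x => ?_
      exact hy.trans (indicator_nonneg (fun x _ => h0 x) x)
    rw [h1]
    exact isClosed_univ
  · have h1 : D.indicator g ⁻¹' Ici y = D ∩ g ⁻¹' Ici y := by
      ext x
      by_cases hx : x ∈ D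
      · simp [hx]
      · simp [hx, hy]
    rw [h1]
    exact hD.inter (hg.isClosed_preimage y)

theorem lcn_indg {n : ℕ} {D : Set (E n)} (hD : Convex ℝ D) {g : E n → ℝ} (hg : LCn g)
    (h0 : ∀ x, 0 ≤ g x) : LCn (D.indicator g) := by
  intro x y t ht ht1
  by_cases hx : x ∈ D
  · by_cases hy : y ∈ D
    · have h1 : (1 - t) • x + t • y ∈ D := hD hx hy (by linarith) ht.le (by ring)
      rw [indicator_of_mem hx, indicator_of_mem hy, indicator_of_mem h1]
      exact hg x y t ht ht1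
    · rw [indicator_of_notMem hy, Real.zero_rpow ht.ne', mul_zero]
      exact indicator_nonneg (fun x _ => h0 x) _
  · rw [indicator_of_notMem hx, Real.zero_rpow (by linarith), zero_mul]
    exact indicator_nonneg (fun x _ => h0 x) _

theorem lw_indg {n : ℕ} {D : Set (E n)} (hDc : IsClosed D) (hDb : Bornology.IsBounded D)
    (hDv : Convex ℝ D) {g : E n → ℝ} (hg : UpperSemicontinuous g) (hl : LCn g)
    (h0 : ∀ x, 0 ≤ g x) {U : Set (E n)} (hU : IsOpen U) (hUn : U.Nonempty) (hUD : U ⊆ D)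
    (hUg : ∀ x ∈ U, 0 < g x) : LW (D.indicator g) := by
  have hK : IsCompact D := Metric.isCompact_of_isClosed_isBounded hDc hDb
  have hne : D.Nonempty := hUn.mono hUD
  obtain ⟨x0, hx0, hmax⟩ := (hg.upperSemicontinuousOn D).exists_isMaxOn hne hK
  have hnn : ∀ x, 0 ≤ D.indicator g x := fun x => indicator_nonneg (fun x _ => h0 x) x
  have husc := usc_ind hDc hg h0
  have hint : Integrable (D.indicator g) := by
    have h1 : IntegrableOn (fun _ : E n => g x0) D := integrableOn_const hDb.measure_lt_top.ne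
    have h2 : Integrable (D.indicator fun _ : E n => g x0) :=
      (integrable_indicator_iff hDc.measurableSet).2 h1
    refine h2.mono' husc.measurable.aestronglyMeasurable (Eventually.of_forall fun x => ?_)
    rw [Real.norm_eq_abs, abs_of_nonneg (hnn x)]
    by_cases hx : x ∈ D
    · rw [indicator_of_mem hx, indicator_of_mem hx]
      exact hmax hx
    · rw [indicator_of_notMem hx, indicator_of_notMem hx]
  refine lw_of hnn (lcn_indg hDv hl h0) husc hint ?_
  rw [integral_pos_iff_support_of_nonneg hnn hint]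
  refine (hU.measure_pos volume hUn).trans_le (measure_mono fun x hx => ?_)
  rw [Function.mem_support, indicator_of_mem (hUD hx)]
  exact (hUg x hx).ne'

/-! ### profiles -/

/-- nonnegative, log-concave, upper semicontinuous functions `F(s, u)`, nonincreasing in `s` -/
structure Prf {r q : ℕ} (F : (Fin r → ℝ) → E q → ℝ) : Prop where
  nonneg : ∀ s u, 0 ≤ F s u
  anti : ∀ s s' u, (∀ j, s j ≤ s' j) → F s' u ≤ F s u
  conc : ∀ (s s' : Fin r → ℝ) (u u' : E q) (t : ℝ), 0 < t → t < 1 →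
    F s u ^ (1 - t) * F s' u' ^ t ≤ F ((1 - t) • s + t • s') ((1 - t) • u + t • u')
  usc : UpperSemicontinuous fun p : (Fin r → ℝ) × E q => F p.1 p.2

/-- the ensemble `F(S_1(z), …, S_r(z), u)` -/
def ens {r m q N : ℕ} (ψ : (E m × E q) ≃ₗ[ℝ] E N) (S : Fin r → E N → ℝ)
    (F : (Fin r → ℝ) → E q → ℝ) (z : E N) : ℝ := F (fun j => S j z) (ψ.symm z).2

/-- a point where all inequalities are strict -/
def Nd {r m q N : ℕ} (ψ : (E m × E q) ≃ₗ[ℝ] E N) (S : Fin r → E N → ℝ)
    (F : (Fin r → ℝ) → E q → ℝ) : Prop := ∃ (z : E N) (s : Fin r → ℝ), (∀ j, S j z < s j) ∧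
  (s, (ψ.symm z).2) ∈ interior {p : (Fin r → ℝ) × E q | 0 < F p.1 p.2}

section

variable {r m q N : ℕ} {ψ : (E m × E q) ≃ₗ[ℝ] E N} {S : Fin r → E N → ℝ}
  {F : (Fin r → ℝ) → E q → ℝ}

theorem snd_cont (ψ : (E m × E q) ≃ₗ[ℝ] E N) : Continuous fun z : E N => (ψ.symm z).2 := by
  have h : Continuous ψ.symm := ψ.symm.toLinearMap.continuous_of_finiteDimensional
  exact h.snd

theorem ens_nonneg (hF : Prf F) (z : E N) : 0 ≤ ens ψ S F z := hF.nonneg _ _

theorem ens_usc (hS : En S) (hF : Prf F) : UpperSemicontinuous (ens ψ S F) := by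
  have h : Continuous fun z : E N => ((fun j => S j z : Fin r → ℝ), (ψ.symm z).2) :=
    (continuous_pi fun j => hS.cont j).prodMk (snd_cont ψ)
  exact hF.usc.comp h

theorem ens_lcn (hS : En S) (hF : Prf F) : LCn (ens ψ S F) := by
  intro x y t ht ht1
  refine (hF.conc _ _ _ _ t ht ht1).trans ?_
  have h1 : (ψ.symm ((1 - t) • x + t • y)).2 = (1 - t) • (ψ.symm x).2 + t • (ψ.symm y).2 := by
    simp
  unfold ens
  rw [h1]
  refine hF.anti _ _ _ fun j => ?_
  have h2 := (hS.convex j).2 (mem_univ x) (mem_univ y) (by linarith : 0 ≤ 1 - t) ht.le (by ring)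
  simpa using h2

/-- `{z | S_j(z) ≤ R for all j}` -/
def sub (S : Fin r → E N → ℝ) (R : ℝ) : Set (E N) := {z | ∀ j, S j z ≤ R}

theorem sub_closed (hS : En S) (R : ℝ) : IsClosed (sub S R) := by
  have e1 : sub S R = ⋂ j, {x : E N | S j x ≤ R} := by
    ext x
    simp [sub]
  rw [e1]
  exact isClosed_iInter fun j => isClosed_le (hS.cont j) continuous_const

theorem sub_conv (hS : En S) (R : ℝ) : Convex ℝ (sub S R) := by
  intro x hx y hy a b ha hb hab j
  have h1 := (hS.convex j).2 (mem_univ x) (mem_univ y) ha hb hab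
  refine h1.trans ?_
  have h2 := mul_le_mul_of_nonneg_left (hx j) ha
  have h3 := mul_le_mul_of_nonneg_left (hy j) hb
  calc a • S j x + b • S j y ≤ a * R + b * R := add_le_add h2 h3
    _ = R := by rw [← add_mul, hab, one_mul]

/-- the open set of points of `Nd` -/
def opn (ψ : (E m × E q) ≃ₗ[ℝ] E N) (S : Fin r → E N → ℝ) (F : (Fin r → ℝ) → E q → ℝ)
    (s : Fin r → ℝ) : Set (E N) := {z | (∀ j, S j z < s j) ∧
  (s, (ψ.symm z).2) ∈ interior {p : (Fin r → ℝ) × E q | 0 < F p.1 p.2}}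

theorem opn_open (hS : En S) (s : Fin r → ℝ) : IsOpen (opn ψ S F s) := by
  have e1 : opn ψ S F s = (⋂ j, {z : E N | S j z < s j}) ∩
      (fun z : E N => (s, (ψ.symm z).2)) ⁻¹'
        interior {p : (Fin r → ℝ) × E q | 0 < F p.1 p.2} := by
    ext x
    simp [opn]
  rw [e1]
  refine IsOpen.inter (isOpen_iInter_of_finite fun j => isOpen_lt (hS.cont j) continuous_const) ?_
  exact isOpen_interior.preimage (continuous_const.prodMk (snd_cont ψ))

theorem opn_pos {s : Fin r → ℝ} {z : E N} (hz : z ∈ opn ψ S F s) :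
    0 < F s (ψ.symm z).2 := by
  have h : (s, (ψ.symm z).2) ∈ {p : (Fin r → ℝ) × E q | 0 < F p.1 p.2} := interior_subset hz.2
  exact h

theorem ens_lw (hS : En S) (hF : Prf F) {s : Fin r → ℝ} {z : E N} (hz : z ∈ opn ψ S F s) {R : ℝ}
    (hR : ∀ j, s j ≤ R) : LW ((sub S R).indicator (ens ψ S F)) := by
  refine lw_indg (sub_closed hS R) (hS.bdd fun _ => R) (sub_conv hS R) (ens_usc hS hF)
    (ens_lcn hS hF) (ens_nonneg hF) (opn_open (F := F) (ψ := ψ) hS s) ⟨z, hz⟩
    (fun y hy j => (hy.1 j).le.trans (hR j)) fun y hy => ?_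
  exact (opn_pos hy).trans_le (hF.anti _ _ _ fun j => (hy.1 j).le)

theorem ens_lw' (hS : En S) (hF : Prf F) (hN : Nd ψ S F) (hi : Integrable (ens ψ S F)) :
    LW (ens ψ S F) := by
  obtain ⟨z, s, hz⟩ := hN
  refine lw_of (ens_nonneg hF) (ens_lcn hS hF) (ens_usc hS hF) hi ?_
  rw [integral_pos_iff_support_of_nonneg (ens_nonneg hF) hi]
  refine ((opn_open (F := F) (ψ := ψ) hS s).measure_pos volume ⟨z, hz⟩).trans_le
    (measure_mono fun y hy => ?_)
  rw [Function.mem_support]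
  exact ((opn_pos hy).trans_le (hF.anti _ _ _ fun j => (hy.1 j).le)).ne'

/-! ### the lift -/

variable {M : ℕ} (Θ : (E N × E r) ≃ₗ[ℝ] E M)

/-- `{(z, s) | S_j(z) ≤ s_j ≤ R}` -/
def dom (S : Fin r → E N → ℝ) (Θ : (E N × E r) ≃ₗ[ℝ] E M) (R : ℝ) : Set (E M) :=
  {y | ∀ j, S j (Θ.symm y).1 ≤ (Θ.symm y).2 j ∧ (Θ.symm y).2 j ≤ R}

/-- the function `F(s, u)` of `(z, s)` -/
def gF (ψ : (E m × E q) ≃ₗ[ℝ] E N) (F : (Fin r → ℝ) → E q → ℝ) (Θ : (E N × E r) ≃ₗ[ℝ] E M)
    (y : E M) : ℝ := F (fun j => (Θ.symm y).2 j) (ψ.symm (Θ.symm y).1).2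

theorem th_cont : Continuous Θ.symm := Θ.symm.toLinearMap.continuous_of_finiteDimensional

theorem th1_cont : Continuous fun y : E M => (Θ.symm y).1 := (th_cont Θ).fst

theorem th2_cont (j : Fin r) : Continuous fun y : E M => (Θ.symm y).2 j := by
  have h := (th_cont Θ).snd
  fun_prop

theorem dom_closed (hS : En S) (R : ℝ) : IsClosed (dom S Θ R) := by
  have e1 : dom S Θ R = ⋂ j, ({y : E M | S j (Θ.symm y).1 ≤ (Θ.symm y).2 j} ∩
      {y : E M | (Θ.symm y).2 j ≤ R}) := by
    ext x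
    simp [dom]
  rw [e1]
  exact isClosed_iInter fun j => (isClosed_le ((hS.cont j).comp (th1_cont Θ)) (th2_cont Θ j)).inter
    (isClosed_le (th2_cont Θ j) continuous_const)

theorem dom_bdd (hS : En S) (R : ℝ) : Bornology.IsBounded (dom S Θ R) := by
  have h1 : Bornology.IsBounded {s : E r | ∀ j, 0 ≤ s j ∧ s j ≤ R} := by
    have h2 : Bornology.IsBounded (Icc (0 : Fin r → ℝ) fun _ => R) := isCompact_Icc.isBounded
    have h3 := (EuclideanSpace.equiv (Fin r) ℝ).symm.toContinuousLinearMap.lipschitz.isBounded_image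
      h2
    refine h3.subset fun s hs => ?_
    exact ⟨EuclideanSpace.equiv (Fin r) ℝ s, ⟨fun j => (hs j).1, fun j => (hs j).2⟩,
      (EuclideanSpace.equiv (Fin r) ℝ).symm_apply_apply s⟩
  have h2 := (hS.bdd fun _ => R).prod h1
  have h3 := Θ.toContinuousLinearEquiv.toContinuousLinearMap.lipschitz.isBounded_image h2
  refine h3.subset fun y hy => ?_
  refine ⟨Θ.symm y, ⟨fun j => (hy j).1.trans (hy j).2, fun j => ⟨?_, (hy j).2⟩⟩,
    Θ.apply_symm_apply y⟩
  exact (hS.nonneg j _).trans (hy j).1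

theorem dom_conv (hS : En S) (R : ℝ) : Convex ℝ (dom S Θ R) := by
  intro x hx y hy a b ha hb hab j
  have e1 : (Θ.symm (a • x + b • y)).1 = a • (Θ.symm x).1 + b • (Θ.symm y).1 := by simp
  have e2 : (Θ.symm (a • x + b • y)).2 j = a * (Θ.symm x).2 j + b * (Θ.symm y).2 j := by simp
  rw [e1, e2]
  have h1 := (hS.convex j).2 (mem_univ (Θ.symm x).1) (mem_univ (Θ.symm y).1) ha hb hab
  simp only [smul_eq_mul] at h1
  constructor
  · refine h1.trans ?_
    exact add_le_add (mul_le_mul_of_nonneg_left (hx j).1 ha)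
      (mul_le_mul_of_nonneg_left (hy j).1 hb)
  · calc a * (Θ.symm x).2 j + b * (Θ.symm y).2 j ≤ a * R + b * R :=
        add_le_add (mul_le_mul_of_nonneg_left (hx j).2 ha)
          (mul_le_mul_of_nonneg_left (hy j).2 hb)
      _ = R := by rw [← add_mul, hab, one_mul]

theorem gF_usc (hF : Prf F) : UpperSemicontinuous (gF ψ F Θ) := by
  have h : Continuous fun y : E M => ((fun j => (Θ.symm y).2 j : Fin r → ℝ),
      (ψ.symm (Θ.symm y).1).2) :=
    (continuous_pi fun j => th2_cont Θ j).prodMk ((snd_cont ψ).comp (th1_cont Θ))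
  exact hF.usc.comp h

theorem gF_lcn (hF : Prf F) : LCn (gF ψ F Θ) := by
  intro x y t ht ht1
  refine (hF.conc _ _ _ _ t ht ht1).trans (le_of_eq ?_)
  unfold gF
  congr 1
  · funext j
    simp
  · simp

theorem dom_lw (hS : En S) (hF : Prf F) {s : Fin r → ℝ} {z : E N} (hz : z ∈ opn ψ S F s) {R : ℝ}
    (hR : ∀ j, s j ≤ R) : LW ((dom S Θ R).indicator (gF ψ F Θ)) := by
  have hU : IsOpen {y : E M | (∀ j, S j (Θ.symm y).1 < (Θ.symm y).2 j ∧ (Θ.symm y).2 j < s j) ∧
      (Θ.symm y).1 ∈ opn ψ S F s} := by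
    have e1 : {y : E M | (∀ j, S j (Θ.symm y).1 < (Θ.symm y).2 j ∧ (Θ.symm y).2 j < s j) ∧
      (Θ.symm y).1 ∈ opn ψ S F s} = (⋂ j, ({y : E M | S j (Θ.symm y).1 < (Θ.symm y).2 j} ∩
        {y : E M | (Θ.symm y).2 j < s j})) ∩ (fun y : E M => (Θ.symm y).1) ⁻¹' opn ψ S F s := by
      ext y
      simp
    rw [e1]
    refine IsOpen.inter (isOpen_iInter_of_finite fun j => ?_)
      ((opn_open hS s).preimage (th1_cont Θ))
    exact (isOpen_lt ((hS.cont j).comp (th1_cont Θ)) (th2_cont Θ j)).inter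
      (isOpen_lt (th2_cont Θ j) continuous_const)
  refine lw_indg (dom_closed Θ hS R) (dom_bdd Θ hS R) (dom_conv Θ hS R) (gF_usc Θ hF)
    (gF_lcn Θ hF) (fun y => hF.nonneg _ _) hU ?_ (fun y hy j => ?_) fun y hy => ?_
  · refine ⟨Θ (z, WithLp.toLp 2 fun j => (S j z + s j) / 2), ?_⟩
    simp only [Set.mem_ofPred_eq, LinearEquiv.symm_apply_apply]
    refine ⟨fun j => ?_, hz⟩
    have := hz.1 j
    constructor <;> linarith
  · exact ⟨(hy.1 j).1.le, (hy.1 j).2.le.trans (hR j)⟩
  · exact (opn_pos hy.2).trans_le (hF.anti _ _ _ fun j => (hy.1 j).2.le)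

theorem dom_proj (hF : Prf F) (R c : ℝ) (hc : 0 < c) :
    {z | c ≤ (sub S R).indicator (ens ψ S F) z} =
      (LinearMap.fst ℝ (E N) (E r) ∘ₗ Θ.symm.toLinearMap) ''
        {y | c ≤ (dom S Θ R).indicator (gF ψ F Θ) y} := by
  ext z
  constructor
  · intro hz
    have hz' : c ≤ (sub S R).indicator (ens ψ S F) z := hz
    have hzR : z ∈ sub S R := by
      by_contra h
      rw [indicator_of_notMem h] at hz'
      linarith
    rw [indicator_of_mem hzR] at hz'
    have e1 : Θ.symm (Θ (z, WithLp.toLp 2 fun j => S j z)) = (z, WithLp.toLp 2 fun j => S j z) :=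
      Θ.symm_apply_apply _
    refine ⟨Θ (z, WithLp.toLp 2 fun j => S j z), ?_, ?_⟩
    · change c ≤ (dom S Θ R).indicator (gF ψ F Θ) _
      rw [indicator_of_mem]
      · unfold gF
        rw [e1]
        exact hz'
      · intro j
        rw [e1]
        exact ⟨le_rfl, hzR j⟩
    · change (Θ.symm (Θ (z, WithLp.toLp 2 fun j => S j z))).1 = z
      rw [e1]
  · rintro ⟨y, hy, rfl⟩
    have hy' : c ≤ (dom S Θ R).indicator (gF ψ F Θ) y := hy
    have hyR : y ∈ dom S Θ R := by
      by_contra h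
      rw [indicator_of_notMem h] at hy'
      linarith
    rw [indicator_of_mem hyR] at hy'
    change c ≤ (sub S R).indicator (ens ψ S F) (Θ.symm y).1
    rw [indicator_of_mem]
    · exact hy'.trans (hF.anti _ _ _ fun j => (hyR j).1)
    · exact fun j => (hyR j).1.trans (hyR j).2

end

end Pool.Agent.U405.KE
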