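import Pool.Agent.U405.KE.B

/-!
# Equivalence of ensembles for the KLS inequality: large fibres and the limit
-/

set_option autoImplicit false

namespace Pool.Agent.U405.KE

open MeasureTheory Set Filter Topology
open scoped ENNReal InnerProductSpace
open Pool.Agent.R754.KG (E un)
open Pool.Agent.Y506.PV (CcW ind LCn)
open Pool.Agent.Y506.RG (EW VW Adm Star pm)
open Pool.Agent.N483.KM

section

variable {r m q N M d : ℕ} {ψ : (E m × E q) ≃ₗ[ℝ] E N} {S : Fin r → E N → ℝ}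
  {F : (Fin r → ℝ) → E q → ℝ} (Θ : (E N × E r) ≃ₗ[ℝ] E M) (κ : (E q × E r) ≃ₗ[ℝ] E d)

/-- coordinates of the lift -/
noncomputable def e2 (ψ : (E m × E q) ≃ₗ[ℝ] E N) (Θ : (E N × E r) ≃ₗ[ℝ] E M)
    (κ : (E q × E r) ≃ₗ[ℝ] E d) : (E m × E d) ≃ₗ[ℝ] E M :=
  ((LinearEquiv.refl ℝ (E m)).prodCongr κ.symm) ≪≫ₗ
    (LinearEquiv.prodAssoc ℝ (E m) (E q) (E r)).symm ≪≫ₗ
    (ψ.prodCongr (LinearEquiv.refl ℝ (E r))) ≪≫ₗ Θ

theorem e2_symm (x : E m) (t : E d) :
    Θ.symm (e2 ψ Θ κ (x, t)) = (ψ (x, (κ.symm t).1), (κ.symm t).2) := by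
  unfold e2
  simp only [LinearEquiv.trans_apply, LinearEquiv.symm_apply_apply]
  rfl

theorem fib {R : ℝ} {t : E d} (ht : ∀ j, (κ.symm t).2 j ≤ R) (x : E m) :
    (dom S Θ R).indicator (gF ψ F Θ) (e2 ψ Θ κ (x, t)) =
      F (fun j => (κ.symm t).2 j) (κ.symm t).1 *
        ind (lv ψ S (fun j => (κ.symm t).2 j) (κ.symm t).1) x := by
  have e1 := e2_symm (ψ := ψ) Θ κ x t
  by_cases hx : x ∈ lv ψ S (fun j => (κ.symm t).2 j) (κ.symm t).1
  · have h1 : e2 ψ Θ κ (x, t) ∈ dom S Θ R := by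
      intro j
      rw [e1]
      exact ⟨hx j, ht j⟩
    unfold ind
    rw [indicator_of_mem h1, indicator_of_mem hx, mul_one]
    unfold gF
    rw [e1, ψ.symm_apply_apply]
  · have h1 : e2 ψ Θ κ (x, t) ∉ dom S Θ R := by
      intro h
      refine hx fun j => ?_
      have h2 := (h j).1
      rw [e1] at h2
      exact h2
    unfold ind
    rw [indicator_of_notMem h1, indicator_of_notMem hx, mul_zero]

theorem fib_zero {R : ℝ} {t : E d} (ht : ¬ ∀ j, (κ.symm t).2 j ≤ R) (x : E m) :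
    (dom S Θ R).indicator (gF ψ F Θ) (e2 ψ Θ κ (x, t)) = 0 := by
  refine indicator_of_notMem (fun h => ht fun j => ?_) _
  have h2 := (h j).2
  rw [e2_symm] at h2
  exact h2

theorem fib_int (hS : En S) {R : ℝ} {t : E d} (ht : ∀ j, (κ.symm t).2 j ≤ R) :
    ∫ x, (dom S Θ R).indicator (gF ψ F Θ) (e2 ψ Θ κ (x, t)) =
      F (fun j => (κ.symm t).2 j) (κ.symm t).1 *
        volume.real (lv ψ S (fun j => (κ.symm t).2 j) (κ.symm t).1) := by
  simp only [fib Θ κ ht, integral_const_mul]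
  congr 1
  unfold ind
  rw [integral_indicator_const _ (lv_closed hS _ _).measurableSet, smul_eq_mul, mul_one]

theorem lv_vol {s0 s1 : Fin r → ℝ} {u0 u1 : E q} {x1 : E m} {c : ℝ} (hS : En S)
    (h1 : ∀ j, S j (ψ (x1, u1)) ≤ s1 j) (hc : 0 < c) (hc1 : c < 1) :
    (1 - c) ^ m * volume.real (lv ψ S s0 u0) ≤
      volume.real (lv ψ S ((1 - c) • s0 + c • s1) ((1 - c) • u0 + c • u1)) := by
  have hsub : AffineMap.homothety x1 (1 - c) '' lv ψ S s0 u0 ⊆
      lv ψ S ((1 - c) • s0 + c • s1) ((1 - c) • u0 + c • u1) := by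
    rintro _ ⟨x, hx, rfl⟩ j
    have e1 : ψ (AffineMap.homothety x1 (1 - c) x, (1 - c) • u0 + c • u1) =
        (1 - c) • ψ (x, u0) + c • ψ (x1, u1) := by
      rw [← map_smul, ← map_smul, ← map_add]
      congr 1
      refine Prod.ext ?_ rfl
      simp only [AffineMap.homothety_apply, vsub_eq_sub, vadd_eq_add, Prod.smul_mk, Prod.mk_add_mk]
      module
    rw [e1]
    have h2 := (hS.convex j).2 (mem_univ (ψ (x, u0))) (mem_univ (ψ (x1, u1)))
      (by linarith : 0 ≤ 1 - c) hc.le (by ring)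
    refine h2.trans ?_
    simp only [smul_eq_mul, Pi.add_apply, Pi.smul_apply]
    exact add_le_add (mul_le_mul_of_nonneg_left (hx j) (by linarith))
      (mul_le_mul_of_nonneg_left (h1 j) hc.le)
  have h3 : volume.real (AffineMap.homothety x1 (1 - c) '' lv ψ S s0 u0) =
      (1 - c) ^ m * volume.real (lv ψ S s0 u0) := by
    unfold Measure.real
    rw [Measure.addHaar_image_homothety, ENNReal.toReal_mul, finrank_euclideanSpace,
      Fintype.card_fin, ENNReal.toReal_ofReal (abs_nonneg _), abs_of_nonneg]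
    exact pow_nonneg (by linarith) m
  rw [← h3]
  exact measureReal_mono hsub (lv_bdd hS _ _).measure_lt_top.ne

theorem fib_bdd {w : E M → ℝ} (hw : LW w) {D : Set (E M)} (hD : Bornology.IsBounded D)
    (h0 : ∀ y, y ∉ D → w y = 0) (e : (E m × E d) ≃ₗ[ℝ] E M) :
    ∃ B : ℝ, ∀ t : E d, ∫ x, w (e (x, t)) ≤ B := by
  obtain ⟨B0, hB0⟩ := hw.bdd
  have h1 := e.symm.toContinuousLinearEquiv.toContinuousLinearMap.lipschitz.isBounded_image hD
  have h2 := (ContinuousLinearMap.fst ℝ (E m) (E d)).lipschitz.isBounded_image h1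
  obtain ⟨ρ, hρ⟩ := h2.subset_closedBall 0
  refine ⟨∫ x, (Metric.closedBall (0 : E m) ρ).indicator (fun _ => B0) x, fun t => ?_⟩
  refine integral_mono (lseR m d M e w t hw).1 ?_ fun x => ?_
  · exact (integrable_indicator_iff measurableSet_closedBall).2
      (integrableOn_const measure_closedBall_lt_top.ne)
  · by_cases hx : x ∈ Metric.closedBall (0 : E m) ρ
    · rw [indicator_of_mem hx]
      exact hB0 _
    · rw [indicator_of_notMem hx]
      refine (h0 _ fun h => hx ?_).le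
      refine hρ ⟨(x, t), ⟨e (x, t), h, e.symm_apply_apply _⟩, rfl⟩

theorem near (hS : En S) (hF : Prf F) {s : Fin r → ℝ} {z : E N} (hz : z ∈ opn ψ S F s) {R : ℝ}
    (hR : ∀ j, s j ≤ R) : ∃ t : E d, (∀ j, (κ.symm t).2 j ≤ R) ∧
      (∃ x : E m, ∀ j, S j (ψ (x, (κ.symm t).1)) < (κ.symm t).2 j) ∧
      0 < F (fun j => (κ.symm t).2 j) (κ.symm t).1 ∧
      ∀ t', 1 / 2 * ∫ x, (dom S Θ R).indicator (gF ψ F Θ) (e2 ψ Θ κ (x, t')) ≤
        ∫ x, (dom S Θ R).indicator (gF ψ F Θ) (e2 ψ Θ κ (x, t)) := by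
  have hW := dom_lw Θ hS hF hz hR
  obtain ⟨G, hG⟩ : ∃ G : E d → ℝ, G = fun t =>
    ∫ x, (dom S Θ R).indicator (gF ψ F Θ) (e2 ψ Θ κ (x, t)) := ⟨_, rfl⟩
  obtain ⟨B, hB⟩ := fib_bdd hW (dom_bdd Θ hS R) (fun y hy => indicator_of_notMem hy _) (e2 ψ Θ κ)
  have hbd : BddAbove (range G) := by
    refine ⟨B, ?_⟩
    rintro _ ⟨t, rfl⟩
    rw [hG]
    exact hB t
  have hpos : ∃ t, 0 < G t := by
    obtain ⟨t', ht'⟩ := (lseR m d M (e2 ψ Θ κ) _ 0 hW).2.1
    have hi := (lseR m d M (e2 ψ Θ κ) _ t' hW).1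
    refine ⟨t', ?_⟩
    rw [hG]
    have h1 : ENNReal.ofReal (∫ x, (dom S Θ R).indicator (gF ψ F Θ) (e2 ψ Θ κ (x, t'))) ≠ 0 := by
      rw [ofReal_integral_eq_lintegral_ofReal hi (Eventually.of_forall fun x => hW.adm.nonneg _)]
      exact ht'
    rw [Ne, ENNReal.ofReal_eq_zero, not_le] at h1
    exact h1
  have hsup : 0 < ⨆ t, G t := by
    obtain ⟨t, ht⟩ := hpos
    exact ht.trans_le (le_ciSup hbd t)
  obtain ⟨t0, ht0⟩ := exists_lt_of_lt_ciSup (half_lt_self hsup)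
  have hG0 : 0 < G t0 := (half_pos hsup).trans ht0
  have hR0 : ∀ j, (κ.symm t0).2 j ≤ R := by
    by_contra h
    have h1 : G t0 = 0 := by
      rw [hG]
      simp only [fib_zero Θ κ h, integral_zero]
    exact hG0.ne' h1
  have hGe : ∀ t : E d, (∀ j, (κ.symm t).2 j ≤ R) → G t =
      F (fun j => (κ.symm t).2 j) (κ.symm t).1 *
        volume.real (lv ψ S (fun j => (κ.symm t).2 j) (κ.symm t).1) := by
    intro t ht
    rw [hG]
    exact fib_int Θ κ hS ht
  obtain ⟨s0, hs0⟩ : ∃ s0 : Fin r → ℝ, s0 = fun j => (κ.symm t0).2 j := ⟨_, rfl⟩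
  obtain ⟨u0, hu0⟩ : ∃ u0 : E q, u0 = (κ.symm t0).1 := ⟨_, rfl⟩
  have hG0' := hGe t0 hR0
  rw [← hs0, ← hu0] at hG0'
  have hV0 : 0 ≤ volume.real (lv ψ S s0 u0) := measureReal_nonneg
  have hF0 : 0 < F s0 u0 := by
    refine (hF.nonneg _ _).lt_of_ne fun h => ?_
    rw [← h, zero_mul] at hG0'
    exact hG0.ne' hG0'
  have hV0' : 0 < volume.real (lv ψ S s0 u0) := by
    refine hV0.lt_of_ne fun h => ?_
    rw [← h, mul_zero] at hG0'
    exact hG0.ne' hG0'
  obtain ⟨x0, hx0⟩ : (lv ψ S s0 u0).Nonempty := by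
    rw [nonempty_iff_ne_empty]
    intro h
    rw [h] at hV0'
    simp at hV0'
  obtain ⟨x1, hx1⟩ : ∃ x1 : E m, x1 = (ψ.symm z).1 := ⟨_, rfl⟩
  obtain ⟨u1, hu1⟩ : ∃ u1 : E q, u1 = (ψ.symm z).2 := ⟨_, rfl⟩
  have hz1 : ψ (x1, u1) = z := by
    rw [hx1, hu1]
    exact ψ.apply_symm_apply z
  have hF1 : 0 < F s u1 := by
    rw [hu1]
    exact opn_pos hz
  -- the perturbation
  obtain ⟨h, hh⟩ : ∃ h : ℝ → ℝ, h = fun c => F s0 u0 ^ (1 - c) * F s u1 ^ c *
    ((1 - c) ^ m * volume.real (lv ψ S s0 u0)) := ⟨_, rfl⟩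
  have hcont : Continuous h := by
    rw [hh]
    have k1 : Continuous fun c : ℝ => F s0 u0 ^ (1 - c) :=
      (Real.continuous_const_rpow hF0.ne').comp (continuous_const.sub continuous_id)
    have k2 : Continuous fun c : ℝ => F s u1 ^ c := Real.continuous_const_rpow hF1.ne'
    fun_prop
  have hh0 : h 0 = G t0 := by
    rw [hh, hG0']
    simp
  have hev : ∀ᶠ c in 𝓝[>] (0 : ℝ), (⨆ t, G t) / 2 < h c := by
    have k1 : ∀ᶠ c in 𝓝 (0 : ℝ), (⨆ t, G t) / 2 < h c :=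
      hcont.continuousAt.eventually (lt_mem_nhds (by rw [hh0]; exact ht0))
    exact k1.filter_mono nhdsWithin_le_nhds
  have hev1 : ∀ᶠ c in 𝓝[>] (0 : ℝ), c ∈ Ioo (0 : ℝ) 1 := Ioo_mem_nhdsGT one_pos
  obtain ⟨c, hc, hc0, hc1⟩ := (hev.and hev1).exists
  have hts : κ.symm (κ ((1 - c) • u0 + c • u1, WithLp.toLp 2 ((1 - c) • s0 + c • s))) =
      ((1 - c) • u0 + c • u1, WithLp.toLp 2 ((1 - c) • s0 + c • s)) := κ.symm_apply_apply _
  have hs2 : (fun j => (κ.symm (κ ((1 - c) • u0 + c • u1,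
      WithLp.toLp 2 ((1 - c) • s0 + c • s)))).2 j) = (1 - c) • s0 + c • s := by
    rw [hts]
  have hu2 : (κ.symm (κ ((1 - c) • u0 + c • u1,
      WithLp.toLp 2 ((1 - c) • s0 + c • s)))).1 = (1 - c) • u0 + c • u1 := by
    rw [hts]
  have hR2 : ∀ j, (κ.symm (κ ((1 - c) • u0 + c • u1,
      WithLp.toLp 2 ((1 - c) • s0 + c • s)))).2 j ≤ R := by
    intro j
    rw [congrFun hs2 j]
    have k1 : s0 j ≤ R := by
      rw [hs0]
      exact hR0 j
    simp only [Pi.add_apply, Pi.smul_apply, smul_eq_mul]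
    calc (1 - c) * s0 j + c * s j ≤ (1 - c) * R + c * R :=
          add_le_add (mul_le_mul_of_nonneg_left k1 (by linarith))
            (mul_le_mul_of_nonneg_left (hR j) hc0.le)
      _ = R := by ring
  refine ⟨κ ((1 - c) • u0 + c • u1, WithLp.toLp 2 ((1 - c) • s0 + c • s)), hR2, ?_, ?_, ?_⟩
  · refine ⟨(1 - c) • x0 + c • x1, fun j => ?_⟩
    rw [hu2, congrFun hs2 j]
    have e1 : ψ ((1 - c) • x0 + c • x1, (1 - c) • u0 + c • u1) =
        (1 - c) • ψ (x0, u0) + c • ψ (x1, u1) := by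
      rw [← map_smul, ← map_smul, ← map_add]
      rfl
    rw [e1]
    have h2 := (hS.convex j).2 (mem_univ (ψ (x0, u0))) (mem_univ (ψ (x1, u1)))
      (by linarith : 0 ≤ 1 - c) hc0.le (by ring)
    refine h2.trans_lt ?_
    simp only [smul_eq_mul, Pi.add_apply, Pi.smul_apply]
    refine add_lt_add_of_le_of_lt (mul_le_mul_of_nonneg_left (hx0 j) (by linarith)) ?_
    rw [hz1]
    exact mul_lt_mul_of_pos_left (hz.1 j) hc0
  · rw [hs2, hu2]
    exact (mul_pos (Real.rpow_pos_of_pos hF0 _) (Real.rpow_pos_of_pos hF1 _)).trans_le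
      (hF.conc s0 s u0 u1 c hc0 hc1)
  · intro t'
    have k1 : G t' ≤ ⨆ t, G t := le_ciSup hbd t'
    have k2 : h c ≤ G (κ ((1 - c) • u0 + c • u1, WithLp.toLp 2 ((1 - c) • s0 + c • s))) := by
      rw [hGe _ hR2, hs2, hu2, hh]
      refine mul_le_mul (hF.conc s0 s u0 u1 c hc0 hc1) (lv_vol (x1 := x1) hS (fun j => ?_) hc0 hc1) ?_
        (hF.nonneg _ _)
      · rw [hz1]
        exact (hz.1 j).le
      · exact mul_nonneg (pow_nonneg (by linarith) m) hV0
    have k3 : G t' / 2 ≤ (⨆ t, G t) / 2 := by linarith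
    have k4 : 1 / 2 * G t' ≤ G (κ ((1 - c) • u0 + c • u1,
        WithLp.toLp 2 ((1 - c) • s0 + c • s))) := by linarith
    rw [hG] at k4
    exact k4

/-- the truncated ensembles belong to the class -/
theorem mc_ens {A : ℝ → ℝ} (hS : En S) (hF : Prf F) {s : Fin r → ℝ} {z : E N}
    (hz : z ∈ opn ψ S F s) {R : ℝ} (hR : ∀ j, s j ≤ R) (hM : Mic A ψ S) :
    MC A (1 / 2) (q + r) 2 N ((sub S R).indicator (ens ψ S F)) := by
  obtain ⟨Θ⟩ : Nonempty ((E N × E r) ≃ₗ[ℝ] E (N + r)) := by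
    apply FiniteDimensional.nonempty_linearEquiv_of_finrank_eq
    simp [Module.finrank_prod]
  obtain ⟨κ⟩ : Nonempty ((E q × E r) ≃ₗ[ℝ] E (q + r)) := by
    apply FiniteDimensional.nonempty_linearEquiv_of_finrank_eq
    simp [Module.finrank_prod]
  obtain ⟨t, h1, h2, h3, h4⟩ := near Θ κ hS hF hz hR
  have hW := dom_lw Θ hS hF hz hR
  have hL : LW fun x : E m => (dom S Θ R).indicator (gF ψ F Θ) (e2 ψ Θ κ (x, t)) := by
    refine lw_sec (C := 2) hW fun t' => ?_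
    have := h4 t'
    linarith
  have hB : MC A (1 / 2) (q + r) 0 m
      fun x : E m => (dom S Θ R).indicator (gF ψ F Θ) (e2 ψ Θ κ (x, t)) := by
    refine .base _ _ hL fun δ hδ => ?_
    have e1 : (fun x : E m => (dom S Θ R).indicator (gF ψ F Θ) (e2 ψ Θ κ (x, t))) =
        fun x => F (fun j => (κ.symm t).2 j) (κ.symm t).1 *
          ind (lv ψ S (fun j => (κ.symm t).2 j) (κ.symm t).1) x := by
      funext x
      exact fib Θ κ h1 x
    rw [e1]
    exact kmw_smul h3.ne' (hM _ _ h2 δ hδ)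
  have hE := MC.ext (A := A) (ε := 1 / 2) (d := q + r) 0 m (q + r) (N + r) (e2 ψ Θ κ) _ t le_rfl hW
    hB h4
  refine .proj 1 (N + r) N _ _ (LinearMap.fst ℝ (E N) (E r) ∘ₗ Θ.symm.toLinearMap) ?_ (by omega)
    (ens_lw hS hF hz hR) (fun c hc => dom_proj Θ hF R c hc) hE
  intro y
  exact ⟨Θ (y, 0), by simp⟩

end

/-- from the microcanonical ensembles to all ensembles -/
theorem ens_of_mic (A : ℝ → ℝ) (r q : ℕ) : ∃ A' : ℝ → ℝ, ∀ (m N : ℕ)
    (ψ : (E m × E q) ≃ₗ[ℝ] E N) (S : Fin r → E N → ℝ) (F : (Fin r → ℝ) → E q → ℝ), En S → Prf F →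
    Nd ψ S F → Integrable (ens ψ S F) → Mic A ψ S →
    LW (ens ψ S F) ∧ ∀ δ : ℝ, 0 < δ → KMW (A' δ) δ (ens ψ S F) := by
  obtain ⟨A', H⟩ := mc_kmw A (1 / 2) (by norm_num) (q + r) 2
  refine ⟨A', fun m N ψ S F hS hF hN hi hM => ?_⟩
  have hL := ens_lw' hS hF hN hi
  refine ⟨hL, fun δ hδ => ?_⟩
  obtain ⟨z, s, hz⟩ := hN
  have hz' : z ∈ opn ψ S F s := hz
  have hle : ∀ (R : ℝ) (x : E N), (sub S R).indicator (ens ψ S F) x ≤ ens ψ S F x := by
    intro R x
    exact indicator_le_self' (fun _ _ => ens_nonneg hF x) x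
  have hnn : ∀ (R : ℝ) (x : E N), 0 ≤ (sub S R).indicator (ens ψ S F) x := fun R x =>
    indicator_nonneg (fun y _ => ens_nonneg hF y) x
  have hmeas : ∀ R : ℝ, Measurable ((sub S R).indicator (ens ψ S F)) := fun R =>
    (ens_usc hS hF).measurable.indicator (sub_closed hS R).measurableSet
  have hlim := Pool.Agent.N73.KM.limk (A0 := A' δ) (δ := δ) (w := ens ψ S F)
    (W := fun j : ℕ => (sub S (j : ℝ)).indicator (ens ψ S F)) hL.adm.int hL.adm.pos ?_ ?_ ?_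
  · exact hlim
  · intro j
    refine hL.adm.int.mono' ?_ (Eventually.of_forall fun x => ?_)
    · exact ((by fun_prop : Measurable fun x : E N => 1 + ‖x‖ ^ 2).mul
        (hmeas j)).aestronglyMeasurable
    · rw [Real.norm_eq_abs, abs_of_nonneg (mul_nonneg (by positivity) (hnn _ x))]
      exact mul_le_mul_of_nonneg_left (hle _ x) (by positivity)
  · have h0 : (0 : ℝ) = ∫ _ : E N, (0 : ℝ) := by simp
    rw [h0]
    refine tendsto_integral_of_dominated_convergence (fun x => (1 + ‖x‖ ^ 2) * ens ψ S F x) ?_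
      hL.adm.int ?_ ?_
    · intro j
      exact ((by fun_prop : Measurable fun x : E N => 1 + ‖x‖ ^ 2).mul
        (((hmeas j).sub (ens_usc hS hF).measurable).abs)).aestronglyMeasurable
    · intro j
      refine Eventually.of_forall fun x => ?_
      rw [Real.norm_eq_abs, abs_of_nonneg (mul_nonneg (by positivity) (abs_nonneg _))]
      refine mul_le_mul_of_nonneg_left ?_ (by positivity)
      rw [abs_sub_comm, abs_of_nonneg (sub_nonneg.2 (hle _ x))]
      linarith [hnn (j : ℝ) x]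
    · refine Eventually.of_forall fun x => ?_
      refine tendsto_const_nhds.congr' ?_
      have h1 : ∀ᶠ j : ℕ in atTop, ∀ i, S i x ≤ (j : ℝ) := eventually_all.2 fun i =>
        tendsto_natCast_atTop_atTop.eventually_ge_atTop (S i x)
      filter_upwards [h1] with j hj
      have h2 : x ∈ sub S (j : ℝ) := hj
      rw [indicator_of_mem h2, sub_self, abs_zero, mul_zero]
  · have h1 : ∀ᶠ j : ℕ in atTop, ∀ i, s i ≤ (j : ℝ) := eventually_all.2 fun i =>
      tendsto_natCast_atTop_atTop.eventually_ge_atTop (s i)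
    filter_upwards [h1] with j hj
    exact H N _ (mc_ens hS hF hz' hj hM) δ hδ

/-- the functional inequality -/
theorem star_of_kmw (A : ℝ → ℝ) : ∃ c : ℝ, 0 < c ∧ ∀ (n : ℕ) (w : E n → ℝ), LW w →
    (∀ δ : ℝ, 0 < δ → KMW (A δ) δ w) → Star c w := by
  obtain ⟨c, hc, H⟩ := mc_star A 1 one_pos 0 0
  exact ⟨c, hc, fun n w hw h => (H n w (.base _ _ hw h)).2⟩

end Pool.Agent.U405.KE
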