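import Pool.Agent.U405.KE.C

/-!
# Equivalence of ensembles for the KLS inequality: convex bodies given by energies and functionals
-/

set_option autoImplicit false

namespace Pool.Agent.U405.KE

open MeasureTheory Set Filter Topology
open scoped ENNReal InnerProductSpace
open Pool.Agent.R754.KG (E un)
open Pool.Agent.R755.KS (KM)
open Pool.Agent.Y506.PV (CcW ind LCn)
open Pool.Agent.Y506.RG (EW VW Adm Star pm)
open Pool.Agent.N483.KM

/-- weights and measures -/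
theorem km_of_kmw {n : ℕ} {A δ : ℝ} {K : Set (E n)} (hK : MeasurableSet K)
    (h : KMW A δ (ind K)) : KM A δ (un K) := by
  intro k P s hs hvar C v hv hv1
  have h1 := h k P s hs (fun θ hθ => by
    rw [Pool.Agent.R754.KG.VW_ind hK]
    exact hvar θ hθ) v C hv.c1 hv1 hv.gd
  rw [Pool.Agent.R754.KG.VW_ind hK, Pool.Agent.R754.KG.EW_ind hK] at h1
  exact h1

/-- bodies with a profile of weak Poincaré inequalities, and their images -/
theorem img_star (A : ℝ → ℝ) (p : ℕ) : ∃ c : ℝ, 0 < c ∧ ∀ (n n' : ℕ) (K : Set (E n))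
    (T : E n →ₗ[ℝ] E n') (w : E n'), IsCompact K → Convex ℝ K → (interior K).Nonempty →
    (∀ δ : ℝ, 0 < δ → KMW (A δ) δ (ind K)) → n ≤ n' + p → Function.Surjective T →
    IsCompact ((fun x => w + T x) '' K) ∧ Convex ℝ ((fun x => w + T x) '' K) ∧
    (interior ((fun x => w + T x) '' K)).Nonempty ∧ Star c (ind ((fun x => w + T x) '' K)) := by
  obtain ⟨c, hc, Hc⟩ := cyR cclR A 1 1 one_pos one_pos 0 p 1
  refine ⟨c, hc, fun n n' K T w h1 h2 h3 h4 hn hT => ?_⟩
  exact Hc _ _ (.image _ _ _ _ T w hn hT (.base _ _ h1 h2 h3 fun δ hδ =>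
    km_of_kmw h1.measurableSet (h4 δ hδ)))

section

variable {r m k q n N : ℕ}

/-- the energies on the affine subspace `v = const` -/
def sec (ψ : (E m × E k × E q) ≃ₗ[ℝ] E N) (e : (E m × E k) ≃ₗ[ℝ] E n) (S : Fin r → E N → ℝ)
    (v : E q) (j : Fin r) (y : E n) : ℝ := S j (ψ ((e.symm y).1, (e.symm y).2, v))

theorem sec_en (ψ : (E m × E k × E q) ≃ₗ[ℝ] E N) (e : (E m × E k) ≃ₗ[ℝ] E n)
    {S : Fin r → E N → ℝ} (hS : En S) (v : E q) : En (sec ψ e S v) := by
  refine ⟨fun j => ⟨convex_univ, fun x _ y _ a b ha hb hab => ?_⟩, fun j y => hS.nonneg j _,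
    fun s => ?_⟩
  · have h1 := (hS.convex j).2 (mem_univ (ψ ((e.symm x).1, (e.symm x).2, v)))
      (mem_univ (ψ ((e.symm y).1, (e.symm y).2, v))) ha hb hab
    refine le_trans (le_of_eq ?_) h1
    unfold sec
    congr 1
    rw [← map_smul, ← map_smul, ← map_add]
    congr 1
    refine Prod.ext (by simp) (Prod.ext (by simp) ?_)
    change v = a • v + b • v
    rw [← add_smul, hab, one_smul]
  · have hb1 := hS.bdd s
    have hψs := ψ.symm.toContinuousLinearEquiv.toContinuousLinearMap.lipschitz.isBounded_image hb1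
    have hb2 := (ContinuousLinearMap.fst ℝ (E m) (E k × E q)).lipschitz.isBounded_image hψs
    have hb3 := ((ContinuousLinearMap.fst ℝ (E k) (E q)).comp
      (ContinuousLinearMap.snd ℝ (E m) (E k × E q))).lipschitz.isBounded_image hψs
    have hb4 := e.toContinuousLinearEquiv.toContinuousLinearMap.lipschitz.isBounded_image
      (hb2.prod hb3)
    refine hb4.subset fun y hy => ?_
    have hy' : ψ ((e.symm y).1, (e.symm y).2, v) ∈ {z | ∀ j, S j z ≤ s j} := hy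
    have h2 := ψ.symm_apply_apply ((e.symm y).1, (e.symm y).2, v)
    refine ⟨e.symm y, ⟨?_, ?_⟩, e.apply_symm_apply y⟩
    · refine ⟨ψ.symm (ψ ((e.symm y).1, (e.symm y).2, v)), ⟨_, hy', rfl⟩, ?_⟩
      rw [h2]
      rfl
    · refine ⟨ψ.symm (ψ ((e.symm y).1, (e.symm y).2, v)), ⟨_, hy', rfl⟩, ?_⟩
      rw [h2]
      rfl

/-- the microcanonical ensembles for given values of `u` and `v` -/
def Mi3 (A : ℝ → ℝ) (ψ : (E m × E k × E q) ≃ₗ[ℝ] E N) (S : Fin r → E N → ℝ) : Prop :=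
  ∀ (s : Fin r → ℝ) (u : E k) (v : E q), (∃ x : E m, ∀ j, S j (ψ (x, u, v)) < s j) →
    ∀ δ : ℝ, 0 < δ → KMW (A δ) δ (ind {x : E m | ∀ j, S j (ψ (x, u, v)) ≤ s j})

/-- the canonical ensembles -/
def Ca3 (A : ℝ → ℝ) (ψ : (E m × E k × E q) ≃ₗ[ℝ] E N) (S : Fin r → E N → ℝ) : Prop :=
  ∀ (l : Fin r → ℝ) (a : E k) (b : E q), (∀ j, 0 < l j) →
    Adm (fun z => Real.exp (-(∑ j, l j * S j z + ⟪a, (ψ.symm z).2.1⟫_ℝ + ⟪b, (ψ.symm z).2.2⟫_ℝ))) ∧
    ∀ δ : ℝ, 0 < δ → KMW (A δ) δ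
      (fun z => Real.exp (-(∑ j, l j * S j z + ⟪a, (ψ.symm z).2.1⟫_ℝ + ⟪b, (ψ.symm z).2.2⟫_ℝ)))

theorem mic_sec {A : ℝ → ℝ} {ψ : (E m × E k × E q) ≃ₗ[ℝ] E N} {S : Fin r → E N → ℝ}
    (h : Mi3 A ψ S) (e : (E m × E k) ≃ₗ[ℝ] E n) (v : E q) : Mic A e (sec ψ e S v) := by
  intro s u hx δ hδ
  have h1 : ∀ x : E m, ∀ j, sec ψ e S v j (e (x, u)) = S j (ψ (x, u, v)) := by
    intro x j
    unfold sec
    rw [e.symm_apply_apply]
  have h2 : lv e (sec ψ e S v) s u = {x : E m | ∀ j, S j (ψ (x, u, v)) ≤ s j} := by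
    ext x
    simp only [lv, Set.mem_ofPred_eq, h1]
  rw [h2]
  refine h s u v ?_ δ hδ
  obtain ⟨x, hx⟩ := hx
  exact ⟨x, fun j => by rw [← h1]; exact hx j⟩

theorem riesz (f : E k →ₗ[ℝ] ℝ) : ∃ a : E k, ∀ u, f u = ⟪a, u⟫_ℝ := by
  refine ⟨(InnerProductSpace.toDual ℝ (E k)).symm (LinearMap.toContinuousLinearMap f), fun u => ?_⟩
  rw [InnerProductSpace.toDual_symm_apply]
  rfl

end

theorem mi3_of_ca3 (A : ℝ → ℝ) (r k q : ℕ) : ∃ A' : ℝ → ℝ, ∀ (m N : ℕ)
    (ψ : (E m × E k × E q) ≃ₗ[ℝ] E N) (S : Fin r → E N → ℝ), 1 ≤ m → En S → Ca3 A ψ S →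
    Mi3 A' ψ S := by
  obtain ⟨A', H⟩ := mic_of_can A r (k + q)
  refine ⟨A', fun m N ψ S hm hS hC s u v hx δ hδ => ?_⟩
  obtain ⟨κ⟩ : Nonempty ((E k × E q) ≃ₗ[ℝ] E (k + q)) := by
    apply FiniteDimensional.nonempty_linearEquiv_of_finrank_eq
    simp [Module.finrank_prod]
  have hM := H m N (((LinearEquiv.refl ℝ (E m)).prodCongr κ.symm) ≪≫ₗ ψ) S hm hS ?_
  · have h1 : ∀ x : E m, (((LinearEquiv.refl ℝ (E m)).prodCongr κ.symm) ≪≫ₗ ψ) (x, κ (u, v)) =
        ψ (x, u, v) := by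
      intro x
      simp
    have h2 := hM s (κ (u, v)) ?_ δ hδ
    · have h3 : lv (((LinearEquiv.refl ℝ (E m)).prodCongr κ.symm) ≪≫ₗ ψ) S s (κ (u, v)) =
          {x : E m | ∀ j, S j (ψ (x, u, v)) ≤ s j} := by
        ext x
        simp only [lv, Set.mem_ofPred_eq, h1]
      rw [h3] at h2
      exact h2
    · obtain ⟨x, hx⟩ := hx
      exact ⟨x, fun j => by rw [h1]; exact hx j⟩
  · intro l a' hl
    obtain ⟨a, ha⟩ := riesz ((innerₗ (E (k + q)) a') ∘ₗ κ.toLinearMap ∘ₗ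
      LinearMap.inl ℝ (E k) (E q))
    obtain ⟨b, hb⟩ := riesz ((innerₗ (E (k + q)) a') ∘ₗ κ.toLinearMap ∘ₗ
      LinearMap.inr ℝ (E k) (E q))
    have e1 : gw (((LinearEquiv.refl ℝ (E m)).prodCongr κ.symm) ≪≫ₗ ψ) S l a' =
        fun z => Real.exp (-(∑ j, l j * S j z + ⟪a, (ψ.symm z).2.1⟫_ℝ +
          ⟪b, (ψ.symm z).2.2⟫_ℝ)) := by
      funext z
      unfold gw
      congr 2
      have h1 : ((((LinearEquiv.refl ℝ (E m)).prodCongr κ.symm) ≪≫ₗ ψ).symm z).2 =
          κ ((ψ.symm z).2) := by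
        simp
      rw [h1, ← ha, ← hb, add_assoc]
      congr 1
      change ⟪a', κ (ψ.symm z).2⟫_ℝ = ⟪a', κ ((ψ.symm z).2.1, 0)⟫_ℝ + ⟪a', κ (0, (ψ.symm z).2.2)⟫_ℝ
      rw [← inner_add_right, ← map_add]
      simp
    rw [e1]
    exact hC l a b hl

/-- bodies given by energies and functionals -/
theorem body_kmw (A : ℝ → ℝ) (r k q : ℕ) : ∃ A' : ℝ → ℝ, ∀ (m n N : ℕ)
    (ψ : (E m × E k × E q) ≃ₗ[ℝ] E N) (e : (E m × E k) ≃ₗ[ℝ] E n) (S : Fin r → E N → ℝ) (v : E q)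
    (D : Set ((Fin r → ℝ) × E k)), 1 ≤ m → En S → (Ca3 A ψ S ∨ Mi3 A ψ S) → IsClosed D →
    Convex ℝ D → (∀ s s' u, (s', u) ∈ D → (∀ j, s j ≤ s' j) → (s, u) ∈ D) →
    Bornology.IsBounded {y : E n | ((fun j => sec ψ e S v j y), (e.symm y).2) ∈ D} →
    (∃ (y : E n) (s : Fin r → ℝ), (∀ j, sec ψ e S v j y < s j) ∧
      (s, (e.symm y).2) ∈ interior D) →
    IsCompact {y : E n | ((fun j => sec ψ e S v j y), (e.symm y).2) ∈ D} ∧
    Convex ℝ {y : E n | ((fun j => sec ψ e S v j y), (e.symm y).2) ∈ D} ∧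
    (interior {y : E n | ((fun j => sec ψ e S v j y), (e.symm y).2) ∈ D}).Nonempty ∧
    ∀ δ : ℝ, 0 < δ → KMW (A' δ) δ
      (ind {y : E n | ((fun j => sec ψ e S v j y), (e.symm y).2) ∈ D}) := by
  obtain ⟨A1, H1⟩ := mi3_of_ca3 A r k q
  obtain ⟨A2, H2⟩ := ens_of_mic A r k
  obtain ⟨A3, H3⟩ := ens_of_mic A1 r k
  refine ⟨fun δ => max (A2 δ) (A3 δ), fun m n N ψ e S v D hm hS hor hDc hDv hDd hKb hnd => ?_⟩
  have hE := sec_en ψ e hS v
  have hc : Continuous fun y : E n => ((fun j => sec ψ e S v j y : Fin r → ℝ), (e.symm y).2) :=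
    (continuous_pi fun j => hE.cont j).prodMk (snd_cont e)
  have hKc : IsClosed {y : E n | ((fun j => sec ψ e S v j y), (e.symm y).2) ∈ D} :=
    hDc.preimage hc
  have hKk := Metric.isCompact_of_isClosed_isBounded hKc hKb
  have hKv : Convex ℝ {y : E n | ((fun j => sec ψ e S v j y), (e.symm y).2) ∈ D} := by
    intro x hx y hy a b ha hb hab
    have h1 : a • ((fun j => sec ψ e S v j x : Fin r → ℝ), (e.symm x).2) +
        b • ((fun j => sec ψ e S v j y : Fin r → ℝ), (e.symm y).2) ∈ D := hDv hx hy ha hb hab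
    have h2 : (e.symm (a • x + b • y)).2 = a • (e.symm x).2 + b • (e.symm y).2 := by simp
    change ((fun j => sec ψ e S v j (a • x + b • y)), (e.symm (a • x + b • y)).2) ∈ D
    rw [h2]
    refine hDd _ _ _ h1 fun j => ?_
    exact (hE.convex j).2 (mem_univ x) (mem_univ y) ha hb hab
  -- the profile
  have hF : Prf fun (s : Fin r → ℝ) (u : E k) => D.indicator (fun _ => (1 : ℝ)) (s, u) := by
    refine ⟨fun s u => indicator_nonneg (fun _ _ => zero_le_one) _, fun s s' u h => ?_,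
      fun s s' u u' t ht ht1 => ?_, ?_⟩
    · by_cases h1 : (s', u) ∈ D
      · rw [indicator_of_mem h1, indicator_of_mem (hDd _ _ _ h1 h)]
      · rw [indicator_of_notMem h1]
        exact indicator_nonneg (fun _ _ => zero_le_one) _
    · by_cases h1 : (s, u) ∈ D
      · by_cases h2 : (s', u') ∈ D
        · have h3 : ((1 - t) • s + t • s', (1 - t) • u + t • u') ∈ D :=
            hDv h1 h2 (by linarith) ht.le (by ring)
          rw [indicator_of_mem h1, indicator_of_mem h2, indicator_of_mem h3, Real.one_rpow,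
            Real.one_rpow, one_mul]
        · rw [indicator_of_notMem h2, Real.zero_rpow ht.ne', mul_zero]
          exact indicator_nonneg (fun _ _ => zero_le_one) _
      · rw [indicator_of_notMem h1, Real.zero_rpow (by linarith), zero_mul]
        exact indicator_nonneg (fun _ _ => zero_le_one) _
    · exact hDc.upperSemicontinuous_indicator zero_le_one
  have hens : ens e (sec ψ e S v) (fun (s : Fin r → ℝ) (u : E k) =>
      D.indicator (fun _ => (1 : ℝ)) (s, u)) =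
      ind {y : E n | ((fun j => sec ψ e S v j y), (e.symm y).2) ∈ D} := by
    funext y
    unfold ens ind
    change D.indicator (fun _ => (1 : ℝ)) ((fun j => sec ψ e S v j y : Fin r → ℝ),
      (e.symm y).2) = _
    by_cases h : ((fun j => sec ψ e S v j y : Fin r → ℝ), (e.symm y).2) ∈ D
    · rw [indicator_of_mem h, indicator_of_mem]
      exact h
    · rw [indicator_of_notMem h, indicator_of_notMem]
      exact h
  have hN : Nd e (sec ψ e S v) (fun (s : Fin r → ℝ) (u : E k) =>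
      D.indicator (fun _ => (1 : ℝ)) (s, u)) := by
    obtain ⟨y, s, h1, h2⟩ := hnd
    refine ⟨y, s, h1, ?_⟩
    have h3 : {p : (Fin r → ℝ) × E k | 0 < D.indicator (fun _ => (1 : ℝ)) (p.1, p.2)} = D := by
      ext p
      by_cases hp : p ∈ D
      · simp [hp]
      · simp [hp]
    rw [h3]
    exact h2
  have hi : Integrable (ens e (sec ψ e S v) (fun (s : Fin r → ℝ) (u : E k) =>
      D.indicator (fun _ => (1 : ℝ)) (s, u))) := by
    rw [hens]
    exact (integrable_indicator_iff hKc.measurableSet).2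
      (integrableOn_const hKb.measure_lt_top.ne)
  have hint : (interior {y : E n | ((fun j => sec ψ e S v j y), (e.symm y).2) ∈ D}).Nonempty := by
    obtain ⟨y, s, h1, h2⟩ := hN
    refine ⟨y, interior_maximal ?_ (opn_open (ψ := e) (F := fun (s : Fin r → ℝ) (u : E k) =>
      D.indicator (fun _ => (1 : ℝ)) (s, u)) hE s) ⟨h1, h2⟩⟩
    intro x hx
    have h3 := (opn_pos hx).trans_le (hF.anti _ _ _ fun j => (hx.1 j).le)
    by_contra h4
    have h5 : ((fun j => sec ψ e S v j x : Fin r → ℝ), (e.symm x).2) ∉ D := h4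
    rw [indicator_of_notMem h5] at h3
    exact lt_irrefl _ h3
  refine ⟨hKk, hKv, hint, fun δ hδ => ?_⟩
  have hmono : ∀ {a b : ℝ} {w : E n → ℝ}, Adm w → a ≤ b → KMW a δ w → KMW b δ w := by
    intro a b w hw hab h k' P s hs hvar v' C hv hv1 hvl
    refine (h k' P s hs hvar v' C hv hv1 hvl).trans ?_
    have h1 : 0 ≤ EW w fun x => ‖fderiv ℝ v' (P x)‖ ^ 2 :=
      div_nonneg (integral_nonneg fun x => mul_nonneg (by positivity) (hw.nonneg x)) hw.pos.le
    have h2 := mul_le_mul_of_nonneg_right (mul_le_mul_of_nonneg_right hab hs.le) h1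
    linarith
  rcases hor with hor | hor
  · have h1 := H3 m n e (sec ψ e S v) _ hE hF hN hi (mic_sec (H1 m N ψ S hm hS hor) e v)
    rw [hens] at h1
    exact hmono h1.1.adm (le_max_right _ _) (h1.2 δ hδ)
  · have h1 := H2 m n e (sec ψ e S v) _ hE hF hN hi (mic_sec hor e v)
    rw [hens] at h1
    exact hmono h1.1.adm (le_max_left _ _) (h1.2 δ hδ)

end Pool.Agent.U405.KE
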