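import Pool.Agent.U405.KE.D

/-!
# Convex functions between two quadratic functions: Poincaré inequality and Cramér–Rao bound
-/

set_option autoImplicit false

namespace Pool.Agent.U405.KE

open MeasureTheory Set Filter Topology
open scoped ENNReal InnerProductSpace
open Pool.Agent.R754.KG (E un)
open Pool.Agent.Y506.PV (CcW ind LCn)
open Pool.Agent.Y506.RG (EW VW Adm Star pm)
open Pool.Agent.N483.KM

variable {n : ℕ}

/-- `V` between two quadratic functions -/
structure Pq (Λ : ℝ) (T : E n ≃L[ℝ] E n) (V : E n → ℝ) : Prop where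
  lower : ConvexOn ℝ univ fun z => V z - ‖T z‖ ^ 2 / 2
  upper : ConvexOn ℝ univ fun z => Λ / 2 * ‖T z‖ ^ 2 - V z

theorem cvx_sq {m : ℕ} (T : E n →ₗ[ℝ] E m) : ConvexOn ℝ univ fun z => ‖T z‖ ^ 2 / 2 := by
  have h1 : ConvexOn ℝ univ fun z : E m => ‖z‖ := convexOn_univ_norm
  have h2 := (h1.comp_linearMap T).pow (fun z _ => norm_nonneg _) 2
  have h3 := h2.smul (by norm_num : (0 : ℝ) ≤ 1 / 2)
  refine h3.congr fun z _ => ?_
  simp [Function.comp_def]
  ring

theorem growth {f : E n → ℝ} (hf : ConvexOn ℝ univ f) : ∃ M b : ℝ, 0 ≤ M ∧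
    ∀ z, b - M * ‖z‖ ≤ f z := by
  have hc : Continuous f := hf.locallyLipschitz.continuous
  obtain ⟨x0, -, hx0⟩ := (isCompact_closedBall (0 : E n) 1).exists_isMaxOn
    ⟨0, by simp⟩ hc.continuousOn
  refine ⟨max (f x0 - f 0) 0, f 0, le_max_right _ _, fun z => ?_⟩
  rcases eq_or_ne z 0 with rfl | hz
  · simp
  have hz' : 0 < ‖z‖ := norm_pos_iff.2 hz
  have hs : 0 < 1 + ‖z‖ := by linarith
  have h1 := hf.2 (mem_univ z) (mem_univ (-(‖z‖⁻¹ • z))) (by positivity : 0 ≤ 1 / (1 + ‖z‖))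
    (by positivity : 0 ≤ ‖z‖ / (1 + ‖z‖)) (by field_simp)
  have h2 : (1 / (1 + ‖z‖)) • z + (‖z‖ / (1 + ‖z‖)) • (-(‖z‖⁻¹ • z)) = 0 := by
    rw [smul_neg, smul_smul, ← sub_eq_add_neg, ← sub_smul]
    have : 1 / (1 + ‖z‖) - ‖z‖ / (1 + ‖z‖) * ‖z‖⁻¹ = 0 := by
      field_simp
      ring
    rw [this, zero_smul]
  rw [h2] at h1
  have h3 : f (-(‖z‖⁻¹ • z)) ≤ f x0 := by
    refine hx0 ?_
    rw [mem_closedBall_zero_iff, norm_neg, norm_smul, norm_inv, norm_norm,
      inv_mul_cancel₀ hz'.ne']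
  simp only [smul_eq_mul] at h1
  have h4 : (1 + ‖z‖) * f 0 ≤ f z + ‖z‖ * f x0 := by
    have h5 : f 0 ≤ 1 / (1 + ‖z‖) * f z + ‖z‖ / (1 + ‖z‖) * f x0 :=
      h1.trans (add_le_add le_rfl (mul_le_mul_of_nonneg_left h3 (by positivity)))
    have h6 := mul_le_mul_of_nonneg_left h5 hs.le
    refine h6.trans (le_of_eq ?_)
    field_simp
  have h5 : (f x0 - f 0) * ‖z‖ ≤ max (f x0 - f 0) 0 * ‖z‖ :=
    mul_le_mul_of_nonneg_right (le_max_left _ _) hz'.le
  nlinarith

theorem gauss_int {c : ℝ} (hc : 0 < c) : Integrable fun z : E n => Real.exp (-(c * ‖z‖ ^ 2)) := by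
  have h1 := (GaussianFourier.integrable_cexp_neg_mul_sq_norm_add (V := E n) (b := (c : ℂ))
    (by simpa using hc) 0 0).norm
  refine h1.congr (Eventually.of_forall fun z => ?_)
  simp only [Complex.norm_exp]
  congr 1
  simp [← Complex.ofReal_pow]

section

variable {Λ : ℝ} {T : E n ≃L[ℝ] E n} {V : E n → ℝ}

theorem Pq.cvx (h : Pq Λ T V) : ConvexOn ℝ univ V := by
  have h1 := h.lower.add (cvx_sq T.toLinearEquiv.toLinearMap)
  refine h1.congr fun z _ => ?_
  simp

theorem Pq.cont (h : Pq Λ T V) : Continuous V := h.cvx.locallyLipschitz.continuous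

theorem Pq.mid (h : Pq Λ T V) (x y : E n) :
    2 * V ((1 / 2 : ℝ) • (x + y)) + ‖T (x - y)‖ ^ 2 / 4 ≤ V x + V y := by
  have h1 := h.lower.2 (mem_univ x) (mem_univ y) (by norm_num : (0 : ℝ) ≤ 1 / 2)
    (by norm_num : (0 : ℝ) ≤ 1 / 2) (by norm_num)
  simp only [smul_eq_mul] at h1
  rw [← smul_add] at h1
  have p1 := parallelogram_law_with_norm ℝ (T x) (T y)
  have e1 : T x + T y = (2 : ℝ) • T ((1 / 2 : ℝ) • (x + y)) := by
    rw [map_smul, map_add, smul_smul]
    norm_num
  rw [e1, ← map_sub, norm_smul] at p1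
  simp only [Real.norm_ofNat] at p1
  nlinarith

theorem Pq.up (h : Pq Λ T V) (x y : E n) :
    V (x + y) + V (x - y) ≤ 2 * V x + Λ * ‖T y‖ ^ 2 := by
  have h1 := h.upper.2 (mem_univ (x + y)) (mem_univ (x - y)) (by norm_num : (0 : ℝ) ≤ 1 / 2)
    (by norm_num : (0 : ℝ) ≤ 1 / 2) (by norm_num)
  have e0 : (1 / 2 : ℝ) • (x + y) + (1 / 2 : ℝ) • (x - y) = x := by module
  rw [e0] at h1
  simp only [smul_eq_mul] at h1
  have p1 := parallelogram_law_with_norm ℝ (T x) (T y)
  rw [← map_add, ← map_sub] at p1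
  have p2 : Λ / 4 * (‖T (x + y)‖ ^ 2 + ‖T (x - y)‖ ^ 2) =
      Λ / 4 * (2 * (‖T x‖ ^ 2 + ‖T y‖ ^ 2)) := by rw [p1]
  linarith

theorem Pq.int (h : Pq Λ T V) : Integrable fun z => Real.exp (-V z) := by
  obtain ⟨M, b, hM, hb⟩ := growth h.lower
  have hT : ∀ z, ‖z‖ ≤ (‖(T.symm : E n →L[ℝ] E n)‖ + 1) * ‖T z‖ := by
    intro z
    have h1 := (T.symm : E n →L[ℝ] E n).le_opNorm (T z)
    simp only [ContinuousLinearEquiv.coe_coe, ContinuousLinearEquiv.symm_apply_apply] at h1
    nlinarith [norm_nonneg (T z)]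
  set κ := ‖(T.symm : E n →L[ℝ] E n)‖ + 1 with hκ
  have hκ0 : 0 < κ := by positivity
  have hc : 0 < 1 / (4 * κ ^ 2) := by positivity
  refine ((gauss_int (n := n) hc).const_mul (Real.exp (M ^ 2 * κ ^ 2 - b))).mono'
    (Real.continuous_exp.comp h.cont.neg).aestronglyMeasurable (Eventually.of_forall fun z => ?_)
  rw [Real.norm_eq_abs, abs_of_pos (Real.exp_pos _), ← Real.exp_add]
  refine Real.exp_le_exp.2 ?_
  have h1 := hb z
  have h2 := hT z
  have h3 : ‖z‖ ^ 2 / κ ^ 2 ≤ ‖T z‖ ^ 2 := by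
    rw [div_le_iff₀ (by positivity)]
    calc ‖z‖ ^ 2 ≤ (κ * ‖T z‖) ^ 2 := pow_le_pow_left₀ (norm_nonneg _) h2 2
      _ = _ := by ring
  have h4 : M * ‖z‖ ≤ M ^ 2 * κ ^ 2 + ‖z‖ ^ 2 / (4 * κ ^ 2) := by
    have h5 : 0 ≤ (M * κ - ‖z‖ / (2 * κ)) ^ 2 := sq_nonneg _
    have h6 : (M * κ - ‖z‖ / (2 * κ)) ^ 2 =
        M ^ 2 * κ ^ 2 - M * ‖z‖ + ‖z‖ ^ 2 / (4 * κ ^ 2) := by
      field_simp
      ring
    linarith
  have h7 : 1 / (4 * κ ^ 2) * ‖z‖ ^ 2 = ‖z‖ ^ 2 / (4 * κ ^ 2) := by ring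
  have h8 : ‖z‖ ^ 2 / κ ^ 2 / 2 = 2 * (‖z‖ ^ 2 / (4 * κ ^ 2)) := by
    field_simp
    ring
  linarith

theorem Pq.lw (h : Pq Λ T V) : LW fun z => Real.exp (-V z) := by
  refine lw_of (fun z => (Real.exp_pos _).le) (fun x y t ht ht1 => ?_)
    (Real.continuous_exp.comp h.cont.neg).upperSemicontinuous h.int ?_
  · rw [← Real.exp_mul, ← Real.exp_mul, ← Real.exp_add]
    refine Real.exp_le_exp.2 ?_
    have h1 := h.cvx.2 (mem_univ x) (mem_univ y) (by linarith : 0 ≤ 1 - t) ht.le (by ring)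
    simp only [smul_eq_mul] at h1
    linarith
  · rw [integral_pos_iff_support_of_nonneg (fun z => (Real.exp_pos _).le) h.int]
    have h1 : Function.support (fun z => Real.exp (-V z)) = univ :=
      eq_univ_of_forall fun z => (Real.exp_pos _).ne'
    rw [h1]
    exact isOpen_univ.measure_pos volume univ_nonempty

/-- integrals over large balls -/
theorem ball_lim {g : E n → ℝ} (hg : Integrable g) :
    Tendsto (fun R : ℕ => ∫ x in Metric.closedBall (0 : E n) R, g x) atTop (𝓝 (∫ x, g x)) := by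
  have h1 : ∀ R : ℕ, ∫ x in Metric.closedBall (0 : E n) R, g x =
      ∫ x, (Metric.closedBall (0 : E n) (R : ℝ)).indicator g x := fun R =>
    (integral_indicator measurableSet_closedBall).symm
  simp only [h1]
  refine tendsto_integral_of_dominated_convergence (fun x => ‖g x‖) (fun R => ?_) hg.norm
    (fun R => Eventually.of_forall fun x => ?_) (Eventually.of_forall fun x => ?_)
  · exact hg.aestronglyMeasurable.indicator measurableSet_closedBall
  · by_cases hx : x ∈ Metric.closedBall (0 : E n) (R : ℝ)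
    · rw [indicator_of_mem hx]
    · rw [indicator_of_notMem hx, norm_zero]
      exact norm_nonneg _
  · refine tendsto_const_nhds.congr' ?_
    filter_upwards [tendsto_natCast_atTop_atTop.eventually_ge_atTop ‖x‖] with R hR
    rw [indicator_of_mem (by simpa using hR)]

/-- the Poincaré inequality of the canonical ensemble -/
theorem Pq.poin (h : Pq Λ T V) {f : E n → ℝ} {C : ℝ} (hf : ContDiff ℝ 1 f) (hf1 : ∀ x, |f x| ≤ 1)
    (hfC : ∀ x, ‖fderiv ℝ f x‖ ≤ C) : VW (fun z => Real.exp (-V z)) f ≤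
      EW (fun z => Real.exp (-V z)) fun x =>
        ‖(fderiv ℝ f x).comp (T.symm : E n →L[ℝ] E n)‖ ^ 2 := by
  have hw := h.lw.adm
  have hc := h.cont
  have hfd : Continuous (fderiv ℝ f) := hf.continuous_fderiv one_ne_zero
  have hfc := hf.continuous
  set w : E n → ℝ := fun z => Real.exp (-V z) with hwdef
  have hwc : Continuous w := Real.continuous_exp.comp hc.neg
  have hw0 : ∀ x, 0 < w x := fun x => Real.exp_pos _
  set G : E n → ℝ := fun x => ‖(fderiv ℝ f x).comp (T.symm : E n →L[ℝ] E n)‖ ^ 2 with hG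
  have hGc : Continuous G := (continuous_norm.comp (hfd.clm_comp continuous_const)).pow 2
  have hwi : Integrable w := h.int
  have hC0 : 0 ≤ C := (norm_nonneg _).trans (hfC 0)
  -- bounded functions
  have hbi : ∀ {g : E n → ℝ} (K : ℝ), Continuous g → (∀ x, |g x| ≤ K) →
      Integrable fun x => g x * w x := by
    intro g K hg hK
    refine (hwi.const_mul K).mono' (hg.mul hwc).aestronglyMeasurable
      (Eventually.of_forall fun x => ?_)
    rw [norm_mul, Real.norm_eq_abs, Real.norm_eq_abs, abs_of_pos (hw0 x)]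
    exact mul_le_mul_of_nonneg_right (hK x) (hw0 x).le
  have i1 := hbi 1 hfc hf1
  have i2 : Integrable fun x => f x ^ 2 * w x := hbi 1 (hfc.pow 2) fun x => by
    rw [abs_pow]
    exact pow_le_one₀ (abs_nonneg _) (hf1 x)
  have i3 : Integrable fun x => G x * w x := by
    refine hbi ((C * ‖(T.symm : E n →L[ℝ] E n)‖) ^ 2) hGc fun x => ?_
    rw [hG]
    simp only [abs_pow, abs_norm]
    refine pow_le_pow_left₀ (norm_nonneg _) ?_ 2
    exact (ContinuousLinearMap.opNorm_comp_le _ _).trans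
      (mul_le_mul_of_nonneg_right (hfC x) (norm_nonneg _))
  -- the truncations
  have key : ∀ R : ℕ, (∫ x in Metric.closedBall (0 : E n) R, f x ^ 2 * w x) *
      (∫ x in Metric.closedBall (0 : E n) R, w x) -
      (∫ x in Metric.closedBall (0 : E n) R, f x * w x) ^ 2 ≤
      (∫ x in Metric.closedBall (0 : E n) R, G x * w x) *
        ∫ x in Metric.closedBall (0 : E n) R, w x := by
    intro R
    set K := Metric.closedBall (0 : E n) (R : ℝ) with hK
    have hKm : MeasurableSet K := measurableSet_closedBall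
    have hKc : IsCompact K := isCompact_closedBall _ _
    have hKv : Convex ℝ K := convex_closedBall _ _
    have hmul : ∀ (g : E n → ℝ) (x : E n), g x * K.indicator w x =
        K.indicator (fun x => g x * w x) x := by
      intro g x
      by_cases hx : x ∈ K
      · rw [indicator_of_mem hx, indicator_of_mem hx]
      · rw [indicator_of_notMem hx, indicator_of_notMem hx, mul_zero]
    have hint : ∀ g : E n → ℝ, ∫ x, g x * K.indicator w x = ∫ x in K, g x * w x := by
      intro g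
      rw [← integral_indicator hKm]
      exact integral_congr_ae (Eventually.of_forall fun x => hmul g x)
    obtain ⟨c, hc'⟩ := Pool.Agent.H888R2.KT.bl_lin (K.indicator w)
      (fun x => indicator_nonneg (fun x _ => (hw0 x).le) x) (hwc.measurable.indicator hKm)
      (by
        obtain ⟨B, hB⟩ := h.lw.bdd
        refine ⟨B, fun x => ?_⟩
        by_cases hx : x ∈ K
        · rw [indicator_of_mem hx]
          exact hB x
        · rw [indicator_of_notMem hx]
          exact (hw0 x).le.trans (hB x))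
      ⟨R, fun x hx => indicator_of_notMem (fun hxK => by
        rw [hK, mem_closedBall_zero_iff] at hxK
        exact absurd hxK (not_le.2 hx)) _⟩ T.symm (by
        intro x y
        by_cases hx : x ∈ K
        swap
        · rw [indicator_of_notMem hx, zero_mul]
          positivity
        by_cases hy : y ∈ K
        swap
        · rw [indicator_of_notMem hy, mul_zero]
          positivity
        have hm : (1 / 2 : ℝ) • (x + y) ∈ K := by
          rw [smul_add]
          exact hKv hx hy (by norm_num) (by norm_num) (by norm_num)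
        rw [indicator_of_mem hx, indicator_of_mem hy, indicator_of_mem hm, sq]
        simp only [hwdef]
        rw [← Real.exp_add, ← Real.exp_add, ← Real.exp_add]
        refine Real.exp_le_exp.2 ?_
        have h1 := h.mid x y
        have h2 : T.symm.symm (x - y) = T (x - y) := rfl
        rw [h2]
        linarith) f hf
    rw [hint (fun x => (f x - c) ^ 2), hint (fun x =>
      ‖(fderiv ℝ f x).comp (T.symm : E n →L[ℝ] E n)‖ ^ 2)] at hc'
    have hexp : ∫ x in K, (f x - c) ^ 2 * w x =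
        (∫ x in K, f x ^ 2 * w x) - 2 * c * (∫ x in K, f x * w x) + c ^ 2 * ∫ x in K, w x := by
      rw [← integral_const_mul, ← integral_const_mul, ← integral_sub, ← integral_add]
      · congr 1
        ext x
        ring
      · exact (i2.sub (i1.const_mul (2 * c))).integrableOn
      · exact (hwi.const_mul _).integrableOn
      · exact i2.integrableOn
      · exact (i1.const_mul (2 * c)).integrableOn
    rw [hexp] at hc'
    have h0 : 0 ≤ ∫ x in K, w x := integral_nonneg fun x => (hw0 x).le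
    have h1 : ∫ x in K, ‖(fderiv ℝ f x).comp (T.symm : E n →L[ℝ] E n)‖ ^ 2 * w x =
      ∫ x in K, G x * w x := rfl
    rw [h1] at hc'
    have h2 := mul_le_mul_of_nonneg_right hc' h0
    nlinarith [sq_nonneg ((∫ x in K, f x * w x) - c * ∫ x in K, w x)]
  have hlim := le_of_tendsto_of_tendsto' (((ball_lim i2).mul (ball_lim hwi)).sub
    ((ball_lim i1).pow 2)) ((ball_lim i3).mul (ball_lim hwi)) key
  have hZ : 0 < ∫ x, w x := hw.pos
  unfold VW EW
  rw [div_pow, div_sub_div _ _ hZ.ne' (by positivity), div_le_div_iff₀ (by positivity) hZ]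
  have h2 := mul_le_mul_of_nonneg_right hlim (by positivity : 0 ≤ (∫ x, w x) ^ 2)
  have h3 : (∫ x, G x * w x) = ∫ x, ‖(fderiv ℝ f x).comp (T.symm : E n →L[ℝ] E n)‖ ^ 2 * w x :=
    rfl
  rw [h3] at h2
  nlinarith

/-- the Cramér–Rao bound, with a parameter -/
theorem Pq.cr1 (h : Pq Λ T V) (L : E n →ₗ[ℝ] ℝ) (ζ : E n) (μ : ℝ) (hμ : 0 < μ) :
    2 * L ζ ≤ μ * Λ * ‖T ζ‖ ^ 2 + VW (fun z => Real.exp (-V z)) (fun x => L x) / μ := by
  have hw := h.lw.adm
  have hLc : Continuous L := L.continuous_of_finiteDimensional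
  have hlin : ∀ x, |L x| ≤ ‖LinearMap.toContinuousLinearMap L‖ * (1 + ‖x‖) := fun x => by
    have h1 := (LinearMap.toContinuousLinearMap L).le_opNorm x
    rw [Real.norm_eq_abs] at h1
    exact h1.trans (mul_le_mul_of_nonneg_left (by linarith) (norm_nonneg _))
  obtain ⟨i1, i2⟩ := Pool.Agent.Y506.RG.lin_int hw (fun x => L x) hLc.measurable _ hlin
  set w : E n → ℝ := fun z => Real.exp (-V z) with hwdef
  have hwi : Integrable w := h.int
  have hw0 : ∀ x, 0 < w x := fun x => Real.exp_pos _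
  set Z := ∫ x, w x with hZ
  have hZ0 : 0 < Z := hw.pos
  set m := EW w (fun x => L x) with hm
  set σ := VW w (fun x => L x) with hσ
  have hσ0 : 0 ≤ σ := by
    have := Pool.Agent.Y506.RG.VW_shift hw (fun x => L x) i1 i2 m
    rw [← hm, sub_self, zero_pow two_ne_zero, add_zero, ← hσ] at this
    rw [← this]
    exact Pool.Agent.Y506.RG.EW_nonneg hw _ fun x => sq_nonneg _
  -- second moments about a point
  have hmom : ∀ a : ℝ, ∫ x, (L x - m - a) ^ 2 * w x = (σ + a ^ 2) * Z := by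
    intro a
    have h1 := Pool.Agent.Y506.RG.VW_shift hw (fun x => L x) i1 i2 (m + a)
    rw [← hm, ← hσ] at h1
    unfold EW at h1
    rw [div_eq_iff hZ0.ne'] at h1
    have h2 : ∀ x, L x - (m + a) = L x - m - a := fun x => by ring
    simp only [h2] at h1
    rw [h1]
    ring
  have hi2 : ∀ a : ℝ, Integrable fun x => (L x - m - a) ^ 2 * w x := by
    intro a
    have h1 := (i2.sub (i1.const_mul (2 * (m + a)))).add (hwi.const_mul ((m + a) ^ 2))
    refine h1.congr (Eventually.of_forall fun x => ?_)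
    simp only [Pi.add_apply, Pi.sub_apply]
    ring
  have hi1 : Integrable fun x => (L x - m) * w x := by
    refine (i1.sub (hwi.const_mul m)).congr (Eventually.of_forall fun x => ?_)
    simp only [Pi.sub_apply]
    ring
  have hm1 : ∫ x, (L x - m) * w x = 0 := by
    have h1 : ∫ x, (L x - m) * w x = (∫ x, L x * w x) - m * Z := by
      rw [hZ, ← integral_const_mul, ← integral_sub i1 (hwi.const_mul m)]
      congr 1
      funext x
      ring
    rw [h1, hm]
    unfold EW
    rw [div_mul_cancel₀ _ hZ0.ne', sub_self]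
  -- the main inequality for finite differences
  have main : ∀ τ : ℝ, 0 < τ →
      2 * L ζ ≤ μ * Λ * ‖T ζ‖ ^ 2 + (σ + (τ * L ζ) ^ 2) / μ := by
    intro τ hτ
    have hlam : 0 < μ / τ := by positivity
    -- translates
    have tr : ∀ (s : ℝ) (g : E n → ℝ), ∫ x, g (s • ζ + x) * w (s • ζ + x) = ∫ x, g x * w x :=
      fun s g => integral_add_left_eq_self (fun x => g x * w x) (s • ζ)
    have tri : ∀ (s : ℝ) {g : E n → ℝ}, Integrable (fun x => g x * w x) →
        Integrable fun x => g (s • ζ + x) * w (s • ζ + x) := fun s g hg =>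
      hg.comp_add_left (s • ζ)
    have tr0 : ∀ s : ℝ, ∫ x, w (s • ζ + x) = Z := fun s => integral_add_left_eq_self w (s • ζ)
    have tri0 : ∀ s : ℝ, Integrable fun x => w (s • ζ + x) := fun s => hwi.comp_add_left (s • ζ)
    have eL : ∀ (s : ℝ) (x : E n), L (s • ζ + x) = s * L ζ + L x := fun s x => by
      rw [map_add, map_smul, smul_eq_mul]
    -- pointwise
    have pt : ∀ x, (L x - m) * (w (-τ • ζ + x) - w (τ • ζ + x)) ≤
        μ / τ * (w (τ • ζ + x) + w (-τ • ζ + x) - 2 * w x + Λ * ‖T (τ • ζ)‖ ^ 2 * w x) +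
        τ / (2 * μ) * ((L x - m) ^ 2 * w (τ • ζ + x) + (L x - m) ^ 2 * w (-τ • ζ + x)) := by
      intro x
      have h1 := h.up x (τ • ζ)
      set a := w (τ • ζ + x) with ha
      set b := w (-τ • ζ + x) with hb
      have ha0 : 0 < a := hw0 _
      have hb0 : 0 < b := hw0 _
      set p := Real.sqrt a with hp
      set q := Real.sqrt b with hq
      have hp2 : p ^ 2 = a := Real.sq_sqrt ha0.le
      have hq2 : q ^ 2 = b := Real.sq_sqrt hb0.le
      have hpq : w x * (1 - Λ * ‖T (τ • ζ)‖ ^ 2 / 2) ≤ p * q := by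
        have e1 : p * q = Real.exp (-(V (x + τ • ζ) + V (x - τ • ζ)) / 2) := by
          rw [hp, hq, ← Real.sqrt_mul ha0.le, ha, hb]
          simp only [hwdef]
          rw [← Real.exp_add, Real.sqrt_eq_iff_mul_self_eq (Real.exp_pos _).le
            (Real.exp_pos _).le, ← Real.exp_add]
          congr 1
          have e2 : x + τ • ζ = τ • ζ + x := add_comm _ _
          have e3 : x - τ • ζ = -τ • ζ + x := by rw [neg_smul]; abel
          rw [e2, e3]
          ring
        rw [e1]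
        have h2 : Real.exp (-V x) * Real.exp (-(Λ * ‖T (τ • ζ)‖ ^ 2 / 2)) ≤
            Real.exp (-(V (x + τ • ζ) + V (x - τ • ζ)) / 2) := by
          rw [← Real.exp_add]
          refine Real.exp_le_exp.2 ?_
          linarith
        refine le_trans ?_ h2
        refine mul_le_mul_of_nonneg_left ?_ (hw0 x).le
        have h3 := Real.add_one_le_exp (-(Λ * ‖T (τ • ζ)‖ ^ 2 / 2))
        linarith
      have h4 : (L x - m) * (b - a) ≤ μ / τ * (a + b - 2 * (p * q)) +
          τ / (2 * μ) * ((L x - m) ^ 2 * a + (L x - m) ^ 2 * b) := by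
        rw [← hp2, ← hq2]
        set y := L x - m with hy
        have h5 : y * (q ^ 2 - p ^ 2) ≤ μ / τ * (q - p) ^ 2 + τ / (4 * μ) * (y * (q + p)) ^ 2 := by
          have h6 : 0 ≤ μ / τ * ((q - p) - τ / (2 * μ) * (y * (q + p))) ^ 2 := by positivity
          have h7 : μ / τ * ((q - p) - τ / (2 * μ) * (y * (q + p))) ^ 2 =
              μ / τ * (q - p) ^ 2 - y * (q ^ 2 - p ^ 2) + τ / (4 * μ) * (y * (q + p)) ^ 2 := by
            field_simp
            ring
          linarith
        have h8 : τ / (4 * μ) * (y * (q + p)) ^ 2 ≤ τ / (2 * μ) * (y ^ 2 * p ^ 2 + y ^ 2 * q ^ 2) := by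
          have h9 : (q + p) ^ 2 ≤ 2 * (p ^ 2 + q ^ 2) := by nlinarith [sq_nonneg (q - p)]
          have h10 := mul_le_mul_of_nonneg_left h9 (by positivity : 0 ≤ τ / (4 * μ) * y ^ 2)
          calc τ / (4 * μ) * (y * (q + p)) ^ 2 = τ / (4 * μ) * y ^ 2 * (q + p) ^ 2 := by ring
            _ ≤ _ := h10
            _ = _ := by ring
        have h11 : μ / τ * (q - p) ^ 2 = μ / τ * (p ^ 2 + q ^ 2 - 2 * (p * q)) := by ring
        linarith
      refine h4.trans ?_
      have h12 : μ / τ * (a + b - 2 * (p * q)) ≤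
          μ / τ * (a + b - 2 * w x + Λ * ‖T (τ • ζ)‖ ^ 2 * w x) := by
        refine mul_le_mul_of_nonneg_left ?_ hlam.le
        linarith
      linarith
    -- the integrals of the translates
    have jL : ∀ s : ℝ, ∫ x, (L x - m) * w (s • ζ + x) = -(s * L ζ) * Z := by
      intro s
      have h1 := tr s fun x => L x - m - s * L ζ
      simp only [eL] at h1
      have h2 : ∀ x, (s * L ζ + L x - m - s * L ζ) * w (s • ζ + x) =
          (L x - m) * w (s • ζ + x) := fun x => by ring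
      simp only [h2] at h1
      rw [h1]
      have h3 : ∀ x, (L x - m - s * L ζ) * w x = (L x - m) * w x - s * L ζ * w x := fun x => by
        ring
      simp only [h3]
      rw [integral_sub hi1 (hwi.const_mul _), hm1, integral_const_mul]
      ring
    have jLi : ∀ s : ℝ, Integrable fun x => (L x - m) * w (s • ζ + x) := by
      intro s
      have h0 : Integrable fun x => (L x - m - s * L ζ) * w x := by
        refine (hi1.sub (hwi.const_mul (s * L ζ))).congr (Eventually.of_forall fun x => ?_)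
        simp only [Pi.sub_apply]
        ring
      refine (tri s h0).congr (Eventually.of_forall fun x => ?_)
      simp only [eL]
      ring
    have jQ : ∀ s : ℝ, ∫ x, (L x - m) ^ 2 * w (s • ζ + x) = (σ + (s * L ζ) ^ 2) * Z := by
      intro s
      have h1 := tr s fun x => (L x - m - s * L ζ) ^ 2
      simp only [eL] at h1
      have h2 : ∀ x, (s * L ζ + L x - m - s * L ζ) ^ 2 * w (s • ζ + x) =
          (L x - m) ^ 2 * w (s • ζ + x) := fun x => by ring
      simp only [h2] at h1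
      rw [h1, hmom]
    have jQi : ∀ s : ℝ, Integrable fun x => (L x - m) ^ 2 * w (s • ζ + x) := by
      intro s
      refine (tri s (hi2 (s * L ζ))).congr (Eventually.of_forall fun x => ?_)
      simp only [eL]
      ring
    have hI := integral_mono (μ := volume)
      (f := fun x => (L x - m) * (w (-τ • ζ + x) - w (τ • ζ + x)))
      (g := fun x => μ / τ * (w (τ • ζ + x) + w (-τ • ζ + x) - 2 * w x +
        Λ * ‖T (τ • ζ)‖ ^ 2 * w x) +
        τ / (2 * μ) * ((L x - m) ^ 2 * w (τ • ζ + x) + (L x - m) ^ 2 * w (-τ • ζ + x)))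
      (by
        refine ((jLi (-τ)).sub (jLi τ)).congr (Eventually.of_forall fun x => ?_)
        simp only [Pi.sub_apply]
        ring)
      (by
        exact (((((tri0 τ).add (tri0 (-τ))).sub (hwi.const_mul 2)).add
          (hwi.const_mul _)).const_mul _).add (((jQi τ).add (jQi (-τ))).const_mul _)) pt
    have e1 : ∫ x, (L x - m) * (w (-τ • ζ + x) - w (τ • ζ + x)) = 2 * τ * L ζ * Z := by
      have h1 : ∀ x, (L x - m) * (w (-τ • ζ + x) - w (τ • ζ + x)) =
          (L x - m) * w (-τ • ζ + x) - (L x - m) * w (τ • ζ + x) := fun x => by ring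
      simp only [h1]
      rw [integral_sub (jLi (-τ)) (jLi τ), jL, jL]
      ring
    have e2 : ∫ x, (μ / τ * (w (τ • ζ + x) + w (-τ • ζ + x) - 2 * w x +
        Λ * ‖T (τ • ζ)‖ ^ 2 * w x) +
        τ / (2 * μ) * ((L x - m) ^ 2 * w (τ • ζ + x) + (L x - m) ^ 2 * w (-τ • ζ + x))) =
        μ / τ * (Λ * ‖T (τ • ζ)‖ ^ 2 * Z) + τ / μ * ((σ + (τ * L ζ) ^ 2) * Z) := by
      rw [integral_add, integral_const_mul, integral_const_mul, integral_add, integral_add,
        integral_sub, integral_add, tr0, tr0, jQ, jQ, integral_const_mul, integral_const_mul]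
      · rw [← hZ, neg_mul, neg_sq]
        field_simp
        ring
      · exact tri0 τ
      · exact tri0 (-τ)
      · exact (tri0 τ).add (tri0 (-τ))
      · exact hwi.const_mul 2
      · exact jQi τ
      · exact jQi (-τ)
      · exact ((tri0 τ).add (tri0 (-τ))).sub (hwi.const_mul 2)
      · exact hwi.const_mul _
      · exact ((((tri0 τ).add (tri0 (-τ))).sub (hwi.const_mul 2)).add
          (hwi.const_mul _)).const_mul _
      · exact ((jQi τ).add (jQi (-τ))).const_mul _
    rw [e1, e2] at hI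
    have h1 : ‖T (τ • ζ)‖ ^ 2 = τ ^ 2 * ‖T ζ‖ ^ 2 := by
      rw [map_smul, norm_smul, mul_pow, Real.norm_eq_abs, sq_abs]
    rw [h1] at hI
    have h2 : μ / τ * (Λ * (τ ^ 2 * ‖T ζ‖ ^ 2) * Z) + τ / μ * ((σ + (τ * L ζ) ^ 2) * Z) =
        (μ * Λ * ‖T ζ‖ ^ 2 + (σ + (τ * L ζ) ^ 2) / μ) * (τ * Z) := by
      field_simp
    rw [h2] at hI
    have h3 : 2 * τ * L ζ * Z = 2 * L ζ * (τ * Z) := by ring
    rw [h3] at hI
    exact le_of_mul_le_mul_right hI (by positivity)
  -- the limit
  have h1 : Tendsto (fun τ : ℝ => μ * Λ * ‖T ζ‖ ^ 2 + (σ + (τ * L ζ) ^ 2) / μ) (𝓝[>] 0)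
      (𝓝 (μ * Λ * ‖T ζ‖ ^ 2 + (σ + (0 * L ζ) ^ 2) / μ)) := by
    refine tendsto_nhdsWithin_of_tendsto_nhds ?_
    exact (Continuous.tendsto (by fun_prop) 0)
  have h2 := ge_of_tendsto h1 (eventually_nhdsWithin_of_forall fun τ hτ => main τ hτ)
  simpa using h2

theorem var_nonneg (h : Pq Λ T V) (L : E n →ₗ[ℝ] ℝ) :
    0 ≤ VW (fun z => Real.exp (-V z)) fun x => L x := by
  have h1 := h.cr1 L 0 1 one_pos
  simpa using h1

/-- the Cramér–Rao bound -/
theorem Pq.cr (h : Pq Λ T V) (hΛ : 0 ≤ Λ) (L : E n →ₗ[ℝ] ℝ) (ζ : E n) :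
    L ζ ^ 2 ≤ Λ * ‖T ζ‖ ^ 2 * VW (fun z => Real.exp (-V z)) fun x => L x := by
  set σ := VW (fun z => Real.exp (-V z)) fun x => L x with hσ
  have hσ0 : 0 ≤ σ := var_nonneg h L
  have hQ0 : 0 ≤ Λ * ‖T ζ‖ ^ 2 := by positivity
  set Q := Λ * ‖T ζ‖ ^ 2 with hQ
  have key : ∀ μ : ℝ, 0 < μ → 2 * μ * |L ζ| ≤ μ ^ 2 * Q + σ := by
    intro μ hμ
    have h1 := h.cr1 L ζ μ hμ
    have h2 := h.cr1 L (-ζ) μ hμ
    rw [map_neg, map_neg, norm_neg] at h2
    rw [← hσ] at h1 h2
    have h3 : 2 * |L ζ| ≤ μ * Λ * ‖T ζ‖ ^ 2 + σ / μ := by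
      rcases abs_cases (L ζ) with h | h <;> rw [h.1]
      · exact h1
      · linarith
    have h4 := mul_le_mul_of_nonneg_left h3 hμ.le
    have h5 : μ * (μ * Λ * ‖T ζ‖ ^ 2 + σ / μ) = μ ^ 2 * Q + σ := by
      rw [hQ]
      field_simp
    linarith
  rw [← sq_abs]
  rcases (abs_nonneg (L ζ)).eq_or_lt with h0 | h0
  · rw [← h0, zero_pow two_ne_zero]
    positivity
  rcases hQ0.eq_or_lt with h1 | h1
  · exfalso
    have h2 := key ((σ + 1) / |L ζ|) (by positivity)
    rw [← h1, mul_zero, zero_add] at h2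
    have h3 : 2 * ((σ + 1) / |L ζ|) * |L ζ| = 2 * (σ + 1) := by
      field_simp
    linarith
  · have h2 := key (|L ζ| / Q) (by positivity)
    have h3 : 2 * (|L ζ| / Q) * |L ζ| = 2 * (|L ζ| ^ 2 / Q) := by ring
    have h4 : (|L ζ| / Q) ^ 2 * Q = |L ζ| ^ 2 / Q := by
      field_simp
    have h5 : |L ζ| ^ 2 / Q ≤ σ := by linarith
    rw [div_le_iff₀ h1] at h5
    linarith

/-- the inequality for all linear images -/
theorem Pq.kmw (h : Pq Λ T V) (hΛ : 0 ≤ Λ) {δ : ℝ} (hδ : 0 ≤ δ) :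
    KMW Λ δ fun z => Real.exp (-V z) := by
  intro k P s hs hvar v C hv hv1 hvl
  have hw := h.lw.adm
  let P' : E n →L[ℝ] E k := LinearMap.toContinuousLinearMap P
  have hP' : ∀ x, P' x = P x := fun x => rfl
  have hvP : ContDiff ℝ 1 fun x => v (P x) := hv.comp P'.contDiff
  have hfd : Continuous (fderiv ℝ v) := hv.continuous_fderiv one_ne_zero
  have hC0 : 0 ≤ C := (norm_nonneg _).trans (hvl 0)
  have hder : ∀ x, fderiv ℝ (fun x => v (P x)) x = (fderiv ℝ v (P x)).comp P' := by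
    intro x
    have h2 : HasFDerivAt v (fderiv ℝ v (P' x)) (P' x) :=
      (hv.differentiable one_ne_zero (P' x)).hasFDerivAt
    exact (h2.comp x P'.hasFDerivAt).fderiv
  have h1 := h.poin (f := fun x => v (P x)) (C := C * ‖P'‖) hvP (fun x => hv1 _) fun x => by
    rw [hder]
    exact (ContinuousLinearMap.opNorm_comp_le _ _).trans
      (mul_le_mul_of_nonneg_right (hvl _) (norm_nonneg _))
  -- the norm of `P T⁻¹`
  have hPS : ∀ u, ‖P' (T.symm u)‖ ≤ Real.sqrt (Λ * s) * ‖u‖ := by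
    intro u
    rcases eq_or_ne (P' (T.symm u)) 0 with h0 | h0
    · rw [h0, norm_zero]
      positivity
    have hn : 0 < ‖P' (T.symm u)‖ := norm_pos_iff.2 h0
    set θ : E k := ‖P' (T.symm u)‖⁻¹ • P' (T.symm u) with hθ
    have hθ1 : ‖θ‖ = 1 := by
      rw [hθ, norm_smul, norm_inv, norm_norm, inv_mul_cancel₀ hn.ne']
    have h2 := h.cr hΛ ((innerₗ (E k) θ) ∘ₗ P) (T.symm u)
    have h3 : ((innerₗ (E k) θ) ∘ₗ P) (T.symm u) = ‖P' (T.symm u)‖ := by
      change ⟪θ, P' (T.symm u)⟫_ℝ = _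
      rw [hθ, real_inner_smul_left, real_inner_self_eq_norm_sq]
      field_simp
    rw [h3, ContinuousLinearEquiv.apply_symm_apply] at h2
    have h4 : VW (fun z => Real.exp (-V z)) (fun x => ((innerₗ (E k) θ) ∘ₗ P) x) ≤ s := by
      refine le_trans (le_of_eq ?_) (hvar θ hθ1)
      have h5 : (fun x => ((innerₗ (E k) θ) ∘ₗ P) x) = fun x => ⟪P x, θ⟫_ℝ := by
        funext x
        exact real_inner_comm (P x) θ
      rw [h5]
    have h5 : ‖P' (T.symm u)‖ ^ 2 ≤ (Real.sqrt (Λ * s) * ‖u‖) ^ 2 := by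
      rw [mul_pow, Real.sq_sqrt (by positivity)]
      refine h2.trans ?_
      calc Λ * ‖u‖ ^ 2 * VW (fun z => Real.exp (-V z)) (fun x => ((innerₗ (E k) θ) ∘ₗ P) x)
          ≤ Λ * ‖u‖ ^ 2 * s := mul_le_mul_of_nonneg_left h4 (by positivity)
        _ = _ := by ring
    exact (pow_le_pow_iff_left₀ (norm_nonneg _) (by positivity) two_ne_zero).1 h5
  have h6 : ∀ x, ‖(fderiv ℝ (fun x => v (P x)) x).comp (T.symm : E n →L[ℝ] E n)‖ ^ 2 ≤
      Λ * s * ‖fderiv ℝ v (P x)‖ ^ 2 := by
    intro x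
    have h7 : ‖(fderiv ℝ (fun x => v (P x)) x).comp (T.symm : E n →L[ℝ] E n)‖ ≤
        ‖fderiv ℝ v (P x)‖ * Real.sqrt (Λ * s) := by
      rw [hder]
      refine ContinuousLinearMap.opNorm_le_bound _ (by positivity) fun u => ?_
      calc ‖(((fderiv ℝ v (P x)).comp P').comp (T.symm : E n →L[ℝ] E n)) u‖
          = ‖fderiv ℝ v (P x) (P' (T.symm u))‖ := rfl
        _ ≤ ‖fderiv ℝ v (P x)‖ * ‖P' (T.symm u)‖ := ContinuousLinearMap.le_opNorm _ _
        _ ≤ ‖fderiv ℝ v (P x)‖ * (Real.sqrt (Λ * s) * ‖u‖) :=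
          mul_le_mul_of_nonneg_left (hPS u) (norm_nonneg _)
        _ = _ := by ring
    calc _ ≤ (‖fderiv ℝ v (P x)‖ * Real.sqrt (Λ * s)) ^ 2 :=
          pow_le_pow_left₀ (norm_nonneg _) h7 2
      _ = Λ * s * ‖fderiv ℝ v (P x)‖ ^ 2 := by
        rw [mul_pow, Real.sq_sqrt (by positivity)]
        ring
  refine h1.trans ?_
  have hPc : Continuous P := P.continuous_of_finiteDimensional
  have hb2 : ∀ x, |‖fderiv ℝ v (P x)‖ ^ 2| ≤ C ^ 2 := fun x => by
    rw [abs_of_nonneg (by positivity)]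
    exact pow_le_pow_left₀ (norm_nonneg _) (hvl _) 2
  have j1 : Integrable fun x => ‖fderiv ℝ v (P x)‖ ^ 2 * Real.exp (-V x) :=
    hw.bdd _ (by fun_prop) (C ^ 2) hb2
  have j2 : Integrable fun x =>
      ‖(fderiv ℝ (fun x => v (P x)) x).comp (T.symm : E n →L[ℝ] E n)‖ ^ 2 *
        Real.exp (-V x) := by
    refine hw.bdd _ ?_ (Λ * s * C ^ 2) fun x => ?_
    · have hfd2 : Continuous (fderiv ℝ fun x => v (P x)) := hvP.continuous_fderiv one_ne_zero
      exact ((continuous_norm.comp (hfd2.clm_comp continuous_const)).pow 2).measurable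
    · rw [abs_of_nonneg (by positivity)]
      refine (h6 x).trans (mul_le_mul_of_nonneg_left ?_ (by positivity))
      exact (le_abs_self _).trans (hb2 x)
  have h8 := Pool.Agent.Y506.RG.EW_mono hw
    (fun x => ‖(fderiv ℝ (fun x => v (P x)) x).comp (T.symm : E n →L[ℝ] E n)‖ ^ 2)
    (fun x => Λ * s * ‖fderiv ℝ v (P x)‖ ^ 2) j2 (by
      refine (j1.const_mul (Λ * s)).congr (Eventually.of_forall fun x => ?_)
      ring) h6
  rw [Pool.Agent.Y506.RG.EW_const_mul] at h8
  linarith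

end

end Pool.Agent.U405.KE
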