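import Pool.Agent.U405.KE.P

/-!
# Energies with pinched Hessians
-/

set_option autoImplicit false

namespace Pool.Agent.U405.KE

open MeasureTheory Set Filter Topology
open scoped ENNReal InnerProductSpace
open Pool.Agent.R754.KG (E un)
open Pool.Agent.Y506.PV (CcW ind LCn)
open Pool.Agent.Y506.RG (EW VW Adm Star pm)
open Pool.Agent.N483.KM

/-- energies `S_j ≥ 0` with `‖B_j z‖² / 2` and `Λ ‖B_j z‖² / 2` as bounds -/
structure Pin (Λ : ℝ) {r N : ℕ} (S : Fin r → E N → ℝ) (B : Fin r → E N →ₗ[ℝ] E N) : Prop where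
  nonneg : ∀ j z, 0 ≤ S j z
  lower : ∀ j, ConvexOn ℝ univ fun z => S j z - ‖B j z‖ ^ 2 / 2
  upper : ∀ j, ConvexOn ℝ univ fun z => Λ / 2 * ‖B j z‖ ^ 2 - S j z
  inj : ∀ z, (∀ j, B j z = 0) → z = 0

section

variable {Λ : ℝ} {r N : ℕ} {S : Fin r → E N → ℝ} {B : Fin r → E N →ₗ[ℝ] E N}

/-- the form `∑ l_j ‖B_j z‖²` -/
theorem exists_T (B : Fin r → E N →ₗ[ℝ] E N) (hinj : ∀ z, (∀ j, B j z = 0) → z = 0)
    (l : Fin r → ℝ) (hl : ∀ j, 0 < l j) :
    ∃ T : E N ≃L[ℝ] E N, ∀ z, ‖T z‖ ^ 2 = ∑ j, l j * ‖B j z‖ ^ 2 := by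
  let L : E N →ₗ[ℝ] PiLp 2 (fun _ : Fin r => E N) :=
    (WithLp.linearEquiv 2 ℝ (Fin r → E N)).symm.toLinearMap ∘ₗ
      LinearMap.pi fun j => Real.sqrt (l j) • B j
  have hL : ∀ z, ‖L z‖ ^ 2 = ∑ j, l j * ‖B j z‖ ^ 2 := by
    intro z
    rw [PiLp.norm_sq_eq_of_L2]
    refine Finset.sum_congr rfl fun j _ => ?_
    have h1 : (L z) j = Real.sqrt (l j) • B j z := rfl
    rw [h1, norm_smul, mul_pow, Real.norm_eq_abs, sq_abs, Real.sq_sqrt (hl j).le]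
  have hinj' : Function.Injective L := by
    rw [← LinearMap.ker_eq_bot, LinearMap.ker_eq_bot']
    intro z hz
    refine hinj z fun j => ?_
    have h1 := hL z
    rw [hz, norm_zero, zero_pow two_ne_zero] at h1
    have h2 : l j * ‖B j z‖ ^ 2 ≤ ∑ j, l j * ‖B j z‖ ^ 2 :=
      Finset.single_le_sum (f := fun j => l j * ‖B j z‖ ^ 2)
        (fun j _ => mul_nonneg (hl j).le (by positivity)) (Finset.mem_univ j)
    rw [← h1] at h2
    have h3 : ‖B j z‖ ^ 2 ≤ 0 := by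
      by_contra hcon
      push Not at hcon
      have := mul_pos (hl j) hcon
      linarith
    have h4 : ‖B j z‖ = 0 := pow_eq_zero_iff two_ne_zero |>.1 (le_antisymm h3 (sq_nonneg _))
    exact norm_eq_zero.1 h4
  let e1 : E N ≃ₗ[ℝ] LinearMap.range L := LinearEquiv.ofInjective L hinj'
  have hfr : Module.finrank ℝ (LinearMap.range L) = N := by
    rw [← e1.finrank_eq]; simp
  let e2 : LinearMap.range L ≃ₗᵢ[ℝ] E N :=
    ((stdOrthonormalBasis ℝ (LinearMap.range L)).reindex (finCongr hfr)).repr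
  let e3 : E N ≃L[ℝ] E N := (e1.trans e2.toLinearEquiv).toContinuousLinearEquiv
  refine ⟨e3, fun z => ?_⟩
  have h1 : e3 z = e2 (e1 z) := rfl
  rw [h1, e2.norm_map, ← hL z]
  rfl

theorem cvx_comb {f : Fin r → E N → ℝ} (hf : ∀ j, ConvexOn ℝ univ (f j)) {l : Fin r → ℝ}
    (hl : ∀ j, 0 < l j) (ℓ : E N →ₗ[ℝ] ℝ) : ConvexOn ℝ univ fun z => ∑ j, l j * f j z + ℓ z := by
  refine ⟨convex_univ, fun x _ y _ a b ha hb hab => ?_⟩
  have h1 : ∑ j, l j * f j (a • x + b • y) ≤ ∑ j, (a * (l j * f j x) + b * (l j * f j y)) := by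
    refine Finset.sum_le_sum fun j _ => ?_
    have h2 := (hf j).2 (mem_univ x) (mem_univ y) ha hb hab
    simp only [smul_eq_mul] at h2
    have h3 := mul_le_mul_of_nonneg_left h2 (hl j).le
    linarith
  rw [Finset.sum_add_distrib, ← Finset.mul_sum, ← Finset.mul_sum] at h1
  have h4 : ℓ (a • x + b • y) = a * ℓ x + b * ℓ y := by
    rw [map_add, map_smul, map_smul, smul_eq_mul, smul_eq_mul]
  simp only [smul_eq_mul]
  rw [h4]
  nlinarith

theorem Pin.pq (h : Pin Λ S B) {l : Fin r → ℝ} (hl : ∀ j, 0 < l j) (ℓ : E N →ₗ[ℝ] ℝ) :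
    ∃ T : E N ≃L[ℝ] E N, Pq Λ T fun z => ∑ j, l j * S j z + ℓ z := by
  obtain ⟨T, hT⟩ := exists_T B h.inj l hl
  refine ⟨T, ?_, ?_⟩
  · refine (cvx_comb h.lower hl ℓ).congr fun z _ => ?_
    rw [hT]
    simp only [mul_sub, Finset.sum_sub_distrib, Finset.sum_div]
    have h1 : ∑ j, l j * (‖B j z‖ ^ 2 / 2) = ∑ j, l j * ‖B j z‖ ^ 2 / 2 :=
      Finset.sum_congr rfl fun j _ => by ring
    rw [h1]
    ring
  · refine (cvx_comb h.upper hl (-ℓ)).congr fun z _ => ?_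
    rw [hT]
    simp only [mul_sub, Finset.sum_sub_distrib, LinearMap.neg_apply]
    have h1 : ∑ j, l j * (Λ / 2 * ‖B j z‖ ^ 2) = Λ / 2 * ∑ j, l j * ‖B j z‖ ^ 2 := by
      rw [Finset.mul_sum]
      exact Finset.sum_congr rfl fun j _ => by ring
    rw [h1]
    ring

theorem Pin.en (h : Pin Λ S B) : En S := by
  refine ⟨fun j => ?_, h.nonneg, fun s => ?_⟩
  · have h1 := (h.lower j).add (cvx_sq (B j))
    refine h1.congr fun z _ => ?_
    simp
  · obtain ⟨T, hT⟩ := h.pq (l := fun _ => 1) (fun _ => one_pos) 0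
    have h1 := hT.lw.comp (Real.exp (-∑ j, s j)) (Real.exp_pos _)
    refine h1.isBounded.subset fun z hz => ?_
    have hz' : ∀ j, S j z ≤ s j := hz
    change Real.exp (-∑ j, s j) ≤ Real.exp (-(∑ j, 1 * S j z + (0 : E N →ₗ[ℝ] ℝ) z))
    refine Real.exp_le_exp.2 (neg_le_neg ?_)
    simp only [one_mul, LinearMap.zero_apply, add_zero]
    exact Finset.sum_le_sum fun j _ => hz' j

theorem Pin.can (h : Pin Λ S B) (hΛ : 0 ≤ Λ) {l : Fin r → ℝ} (hl : ∀ j, 0 < l j)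
    (ℓ : E N →ₗ[ℝ] ℝ) : Adm (fun z => Real.exp (-(∑ j, l j * S j z + ℓ z))) ∧
    ∀ δ : ℝ, 0 < δ → KMW Λ δ fun z => Real.exp (-(∑ j, l j * S j z + ℓ z)) := by
  obtain ⟨T, hT⟩ := h.pq hl ℓ
  exact ⟨hT.lw.adm, fun δ hδ => hT.kmw hΛ hδ.le⟩

end

/-- coordinates adapted to linear functionals -/
theorem split {n k : ℕ} (U : E n →ₗ[ℝ] E k) (hU : Function.Surjective U) (hk : k < n) :
    ∃ (m : ℕ) (e : (E m × E k) ≃ₗ[ℝ] E n), 1 ≤ m ∧ ∀ y, (e.symm y).2 = U y := by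
  obtain ⟨s, hs⟩ := U.exists_rightInverse_of_surjective (LinearMap.range_eq_top.2 hU)
  have hs' : ∀ u, U (s u) = u := fun u => LinearMap.congr_fun hs u
  have hfr : Module.finrank ℝ (LinearMap.ker U) = n - k := by
    have h1 := LinearMap.finrank_range_add_finrank_ker U
    rw [LinearMap.range_eq_top.2 hU, finrank_top] at h1
    simp only [finrank_euclideanSpace, Fintype.card_fin] at h1
    omega
  let κ : E (n - k) ≃ₗ[ℝ] LinearMap.ker U := LinearEquiv.ofFinrankEq _ _ (by rw [hfr]; simp)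
  let φ : (E (n - k) × E k) →ₗ[ℝ] E n :=
    (LinearMap.ker U).subtype ∘ₗ κ.toLinearMap ∘ₗ LinearMap.fst ℝ _ _ + s ∘ₗ LinearMap.snd ℝ _ _
  have hφ : ∀ p, φ p = (κ p.1 : E n) + s p.2 := fun p => rfl
  have hUφ : ∀ p, U (φ p) = p.2 := by
    intro p
    rw [hφ, map_add, hs', LinearMap.mem_ker.1 (κ p.1).2, zero_add]
  have hinj : Function.Injective φ := by
    rw [← LinearMap.ker_eq_bot, LinearMap.ker_eq_bot']
    intro p hp
    have h1 : p.2 = 0 := by rw [← hUφ p, hp, map_zero]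
    have h2 : (κ p.1 : E n) = 0 := by
      have := hφ p
      rw [hp, h1, map_zero, add_zero] at this
      exact this.symm
    have h3 : p.1 = 0 := by
      have h4 : κ p.1 = 0 := Subtype.ext h2
      exact κ.map_eq_zero_iff.1 h4
    exact Prod.ext h3 h1
  have hdim : Module.finrank ℝ (E (n - k) × E k) = Module.finrank ℝ (E n) := by
    simp only [Module.finrank_prod, finrank_euclideanSpace, Fintype.card_fin]
    omega
  refine ⟨n - k, LinearEquiv.ofInjectiveOfFinrankEq φ hinj hdim, by omega, fun y => ?_⟩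
  have h1 : φ ((LinearEquiv.ofInjectiveOfFinrankEq φ hinj hdim).symm y) = y :=
    (LinearEquiv.ofInjectiveOfFinrankEq φ hinj hdim).apply_symm_apply y
  rw [← hUφ ((LinearEquiv.ofInjectiveOfFinrankEq φ hinj hdim).symm y), h1]

/-- all ensembles -/
theorem pin_ens (Λ : ℝ) (hΛ : 0 ≤ Λ) (r k : ℕ) : ∃ A' : ℝ → ℝ, ∀ (n : ℕ) (U : E n →ₗ[ℝ] E k)
    (S : Fin r → E n → ℝ) (B : Fin r → E n →ₗ[ℝ] E n) (F : (Fin r → ℝ) → E k → ℝ), k < n →
    Function.Surjective U → Pin Λ S B → Prf F →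
    (∃ (z : E n) (s : Fin r → ℝ), (∀ j, S j z < s j) ∧
      (s, U z) ∈ interior {p : (Fin r → ℝ) × E k | 0 < F p.1 p.2}) →
    Integrable (fun z => F (fun j => S j z) (U z)) →
    LW (fun z => F (fun j => S j z) (U z)) ∧
      ∀ δ : ℝ, 0 < δ → KMW (A' δ) δ fun z => F (fun j => S j z) (U z) := by
  obtain ⟨A1, H1⟩ := mic_of_can (fun _ => Λ) r k
  obtain ⟨A2, H2⟩ := ens_of_mic A1 r k
  refine ⟨A2, fun n U S B F hk hU hS hF hN hi => ?_⟩
  obtain ⟨m, e, hm, he⟩ := split U hU hk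
  have hC : Can (fun _ => Λ) e S := by
    intro l a hl
    have h1 := hS.can hΛ hl ((innerₗ (E k) a) ∘ₗ U)
    have h2 : (fun z => Real.exp (-(∑ j, l j * S j z + ((innerₗ (E k) a) ∘ₗ U) z))) =
        gw e S l a := by
      funext z
      unfold gw
      rw [he]
      rfl
    rw [h2] at h1
    exact h1
  have hM := H1 m n e S hm hS.en hC
  have hens : ens e S F = fun z => F (fun j => S j z) (U z) := by
    funext z
    unfold ens
    rw [he]
  have h := H2 m n e S F hS.en hF ?_ ?_ hM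
  · rwa [hens] at h
  · obtain ⟨z, s, h1, h2⟩ := hN
    exact ⟨z, s, h1, by rwa [he]⟩
  · rwa [hens]

/-- bodies -/
theorem pin_body (Λ : ℝ) (hΛ : 0 ≤ Λ) (r k : ℕ) : ∃ A' : ℝ → ℝ, ∀ (n : ℕ) (U : E n →ₗ[ℝ] E k)
    (S : Fin r → E n → ℝ) (B : Fin r → E n →ₗ[ℝ] E n) (D : Set ((Fin r → ℝ) × E k)), k < n →
    Function.Surjective U → Pin Λ S B → IsClosed D → Convex ℝ D →
    (∀ s s' u, (s', u) ∈ D → (∀ j, s j ≤ s' j) → (s, u) ∈ D) →
    Bornology.IsBounded {y : E n | ((fun j => S j y), U y) ∈ D} →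
    (∃ (y : E n) (s : Fin r → ℝ), (∀ j, S j y < s j) ∧ (s, U y) ∈ interior D) →
    IsCompact {y : E n | ((fun j => S j y), U y) ∈ D} ∧
    Convex ℝ {y : E n | ((fun j => S j y), U y) ∈ D} ∧
    (interior {y : E n | ((fun j => S j y), U y) ∈ D}).Nonempty ∧
    ∀ δ : ℝ, 0 < δ → KMW (A' δ) δ (ind {y : E n | ((fun j => S j y), U y) ∈ D}) := by
  obtain ⟨A', H⟩ := body_kmw (fun _ => Λ) r k 0
  refine ⟨A', fun n U S B D hk hU hS hD1 hD2 hD3 hb hnd => ?_⟩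
  obtain ⟨m, e, hm, he⟩ := split U hU hk
  let ψ0 : (E k × E 0) ≃ₗ[ℝ] E k :=
    { toFun := fun p => p.1
      invFun := fun u => (u, 0)
      map_add' := fun _ _ => rfl
      map_smul' := fun _ _ => rfl
      left_inv := fun p => Prod.ext rfl (Subsingleton.elim _ _)
      right_inv := fun _ => rfl }
  let ψ1 : (E m × E k × E 0) ≃ₗ[ℝ] E n := ((LinearEquiv.refl ℝ (E m)).prodCongr ψ0) ≪≫ₗ e
  have hψ : ∀ (x : E m) (u : E k) (v : E 0), ψ1 (x, u, v) = e (x, u) := fun x u v => rfl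
  have hC : Ca3 (fun _ => Λ) ψ1 S := by
    intro l a b hl
    let ℓ : E n →ₗ[ℝ] ℝ :=
      (innerₗ (E k) a) ∘ₗ LinearMap.fst ℝ _ _ ∘ₗ LinearMap.snd ℝ _ _ ∘ₗ ψ1.symm.toLinearMap +
        (innerₗ (E 0) b) ∘ₗ LinearMap.snd ℝ _ _ ∘ₗ LinearMap.snd ℝ _ _ ∘ₗ ψ1.symm.toLinearMap
    have h1 := hS.can hΛ hl ℓ
    have h2 : (fun z => Real.exp (-(∑ j, l j * S j z + ℓ z))) = fun z =>
        Real.exp (-(∑ j, l j * S j z + ⟪a, (ψ1.symm z).2.1⟫_ℝ + ⟪b, (ψ1.symm z).2.2⟫_ℝ)) := by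
      funext z
      rw [add_assoc]
      rfl
    rw [h2] at h1
    exact h1
  have hsec : ∀ (j : Fin r) (y : E n), sec ψ1 e S 0 j y = S j y := by
    intro j y
    unfold sec
    rw [hψ]
    exact congrArg (S j) (e.apply_symm_apply y)
  have h := H m n n ψ1 e S 0 D hm hS.en (Or.inl hC) hD1 hD2 hD3
  simp only [hsec, he] at h
  exact h hb hnd

end Pool.Agent.U405.KE
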